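import Mathlib
import Pool.Agent.H75.Perc.Dom
import Pool.Agent.H69.Q1.Orbit

set_option autoImplicit false
open Finset

/-! Simply connected lattice domains with an arbitrary base corner: total turnings and boundary
indices (general form of `H75/Perc/Dom.lean`). -/

namespace Pool.Agent.H5.Q1

open Pool.Agent.H75.Perc
open Pool.Agent.H69.Q1 (exists_orb_nx inOrb_symm inOrb_trans)

/-- Vertices of the edges of `E`. -/
noncomputable def VE (E : Finset (ℤ × ℤ)) : Finset (ℤ × ℤ) :=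
  (E.image (fun e => vx (in1 e))) ∪ (E.image (fun e => vx (in2 e)))

lemma mem_VE {E : Finset (ℤ × ℤ)} {e : ℤ × ℤ} (he : e ∈ E) :
    vx (in1 e) ∈ VE E ∧ vx (in2 e) ∈ VE E := by
  unfold VE
  exact ⟨mem_union_left _ (mem_image_of_mem _ he), mem_union_right _ (mem_image_of_mem _ he)⟩

/-- Boundary corner of `E`: the vertex is a vertex of `E`, the edge met next is not in `E`. -/
def Bd (E : Finset (ℤ × ℤ)) (c : ℤ × ℤ) : Prop := vx c ∈ VE E ∧ lab c ∉ E

lemma nx_VE {E ω : Finset (ℤ × ℤ)} (hω : ω ⊆ E) {c : ℤ × ℤ} (hc : vx c ∈ VE E) :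
    vx (nx ω c) ∈ VE E := by
  rcases vx_nx ω c with h | ⟨e, he, h | h⟩
  · rw [h]; exact hc
  · rw [h.2]; exact (mem_VE (hω he)).2
  · rw [h.2]; exact (mem_VE (hω he)).1

lemma iter_VE {E ω : Finset (ℤ × ℤ)} (hω : ω ⊆ E) {c : ℤ × ℤ} (hc : vx c ∈ VE E) (i : ℕ) :
    vx ((nx ω)^[i] c) ∈ VE E := by
  induction i with
  | zero => exact hc
  | succ i ih =>
    rw [Function.iterate_succ_apply']
    exact nx_VE hω ih

/-- A simply connected lattice domain: in the full configuration all boundary corners lie on one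
loop. -/
structure DomG (E : Finset (ℤ × ℤ)) : Prop where
  odd : ∀ e ∈ E, (e.1 + e.2) % 2 = 1
  loop : ∀ c c', Bd E c → Bd E c' → InOrb (nx E) c c'

/-- Outer corner of `E`: on the loop of a boundary corner in the full configuration. -/
def Out (E : Finset (ℤ × ℤ)) (c : ℤ × ℤ) : Prop := ∃ c1, Bd E c1 ∧ InOrb (nx E) c1 c

lemma Bd.out {E : Finset (ℤ × ℤ)} {c : ℤ × ℤ} (h : Bd E c) : Out E c := ⟨c, h, 0, rfl⟩

lemma Out.vert {E : Finset (ℤ × ℤ)} {c : ℤ × ℤ} (h : Out E c) : vx c ∈ VE E := by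
  obtain ⟨c1, h1, i, rfl⟩ := h
  exact iter_VE (subset_refl E) h1.1 i

lemma Out.inOrb {E : Finset (ℤ × ℤ)} {c c' : ℤ × ℤ} (h : Out E c) (hc : InOrb (nx E) c c') :
    Out E c' := by
  obtain ⟨c1, h1, h2⟩ := h
  exact ⟨c1, h1, inOrb_trans h2 hc⟩

/-- All outer corners lie on one loop of the full configuration. -/
lemma DomG.out_loop {E : Finset (ℤ × ℤ)} (hD : DomG E) {c c' : ℤ × ℤ} (h : Out E c)
    (h' : Out E c') : InOrb (nx E) c c' := by
  obtain ⟨c1, h1, h2⟩ := h
  obtain ⟨c2, h3, h4⟩ := h'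
  exact inOrb_trans (inOrb_symm h2) (inOrb_trans (hD.loop _ _ h1 h3) h4)

/-- The lower left corner of a lowest vertex is a boundary corner. -/
lemma exists_lowest {E : Finset (ℤ × ℤ)} (hne : (VE E).Nonempty) : ∃ c, Bd E c ∧ ty c = 0 ∧
    c.2 = 2 * (vx c).2 ∧ ∀ v ∈ VE E, (vx c).2 ≤ v.2 := by
  obtain ⟨v, hv, hmin⟩ := Finset.exists_min_image (VE E) (fun v => v.2) hne
  set c : ℤ × ℤ := (2 * v.1, 2 * v.2) with hc
  have hvc : vx c = v := by
    rw [hc]; unfold vx; refine Prod.ext ?_ ?_ <;> simp only <;> omega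
  have hty : ty c = 0 ∧ lab c = (2 * v.1, 2 * v.2 - 1) := by
    rcases ty_cases c with ⟨h0, h1, h2, h3, h4, h5⟩ | ⟨h0, h1, h2, h3, h4, h5⟩ |
      ⟨h0, h1, h2, h3, h4, h5⟩ | ⟨h0, h1, h2, h3, h4, h5⟩ <;> rw [hc] at h1 h2 <;>
    simp only at h1 h2
    · exact ⟨h0, h3⟩
    · omega
    · omega
    · omega
  have hl : lab c ∉ E := by
    intro h
    have h1 := (mem_VE h).2
    have h2 := hmin _ h1
    rw [hty.2] at h2
    have h3 : vx (in2 (2 * v.1, 2 * v.2 - 1)) = (v.1, v.2 - 1) := by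
      rcases vx_in1 ((2 * v.1, 2 * v.2 - 1) : ℤ × ℤ) (by simp only; omega) with
        ⟨g1, g2, g3, g4⟩ | ⟨g1, g2, g3, g4⟩
      · simp only at g1; omega
      · rw [g4]; refine Prod.ext ?_ ?_ <;> simp only <;> omega
    rw [h3] at h2
    simp only at h2
    omega
  exact ⟨c, ⟨by rw [hvc]; exact hv, hl⟩, hty.1, by rw [hvc], fun w hw => by
    rw [hvc]; exact hmin w hw⟩

/-- The loop of an outer corner in the full configuration. -/
lemma DomG.total_full {E : Finset (ℤ × ℤ)} (hD : DomG E) {c0 : ℤ × ℤ} (hc0 : Out E c0) {L : ℕ}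
    (hO : Orb (nx E) c0 L) (k0 : ℤ) : KK (nx E) (del E) c0 k0 L = k0 + 4 := by
  classical
  obtain ⟨c, hbd, hty, hc2, hmin⟩ := exists_lowest ⟨_, hc0.vert⟩
  have hl := hbd.2
  obtain ⟨i, hi⟩ := hD.out_loop hc0 hbd.out
  obtain ⟨hO', hK⟩ := hO.rotate (nx_injective E) (del E) k0 i
  rw [hi] at hO' hK
  have hp := isPath_explore E c 0 (by rw [hty]; rfl)
  have hL := orb_ge_three hO'
  have hkL := kk_mod E c 0 (by rw [hty]; rfl) L
  rw [hO'.per, hty] at hkL
  have s0 : sg E c 0 0 = 0 := by rw [sg_of_closed (by simpa using hl)]; rfl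
  have sL : sg E c 0 L = kk E c 0 L := sg_of_closed (by rw [hO'.per]; exact hl)
  have hdir : dir (sg E c 0 L) = dir (sg E c 0 0) := by
    rw [dir_eq_iff, s0, sL, hkL]; rfl
  have hfin := turning_four_N _ _ hp L hL hO'.add hO'.inj hdir (by rw [s0]; rfl) (by
    intro b
    have h1 := hmin _ (iter_VE (subset_refl E) hbd.1 b)
    simp only [Function.iterate_zero, id_eq]
    have e0 : c.2 = 2 * (vx c).2 := hc2
    unfold vx at h1 e0
    simp only at h1 e0
    omega)
  rw [s0, sL, kk_eq_KK] at hfin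
  rw [← hK]
  have hs := KK_shift (nx E) (del E) c 0 k0 L
  rw [hs]
  omega

/-- All boundary loops have total turning `4`, in every configuration. -/
lemma DomG.total {E : Finset (ℤ × ℤ)} (hD : DomG E) : ∀ (n : ℕ) (ω : Finset (ℤ × ℤ)), ω ⊆ E →
    (E \ ω).card = n → ∀ c, Out E c → ∀ L, Orb (nx ω) c L → ∀ k0,
    KK (nx ω) (del ω) c k0 L = k0 + 4 := by
  classical
  intro n
  induction n with
  | zero =>
    intro ω hω hn c hc L hO k0
    have hE : ω = E := by
      apply subset_antisymm hω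
      exact sdiff_eq_empty_iff_subset.1 (card_eq_zero.1 hn)
    subst hE
    exact hD.total_full hc hO k0
  | succ n ih =>
    intro ω hω hn c hc L hO k0
    obtain ⟨e, he⟩ : (E \ ω).Nonempty := by
      rw [← card_pos]; omega
    rw [mem_sdiff] at he
    have hodd := hD.odd e he.1
    have hω' : insert e ω ⊆ E := insert_subset he.1 hω
    have hcard : (E \ insert e ω).card = n := by
      rw [sdiff_insert, card_erase_of_mem (mem_sdiff.2 he)]; omega
    have ih' := ih (insert e ω) hω' hcard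
    have hsw := swapped_insert ω e hodd he.2
    have d1 : del ω (in1 e) = 1 := by unfold del; rw [lab_in1 e hodd, if_neg he.2]
    have d2 : del ω (in2 e) = 1 := by unfold del; rw [lab_in2 e hodd, if_neg he.2]
    have d3 : del (insert e ω) (in1 e) = -1 := by
      unfold del; rw [lab_in1 e hodd, if_pos (mem_insert_self _ _)]
    have d4 : del (insert e ω) (in2 e) = -1 := by
      unfold del; rw [lab_in2 e hodd, if_pos (mem_insert_self _ _)]
    obtain ⟨Mp, hMp⟩ := exists_orb_nx ω (in1 e)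
    obtain ⟨Mq, hMq⟩ := exists_orb_nx ω (in2 e)
    obtain ⟨L', hO'⟩ := exists_orb_nx (insert e ω) c
    have hT' := ih' c hc L' hO' k0
    have hoff' : ∀ x, x ≠ in1 e → x ≠ in2 e → del ω x = del (insert e ω) x :=
      fun x h1 h2 => (del_off ω e hodd x h1 h2).symm
    -- both on the loop of c in ω
    have caseA : InOrb (nx ω) c (in1 e) → InOrb (nx ω) c (in2 e) →
        KK (nx ω) (del ω) c k0 L = k0 + 4 := by
      intro hp hq
      have main : ∀ p q, Swapped (nx ω) (nx (insert e ω)) p q →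
          (∀ x, x ≠ p → x ≠ q → del (insert e ω) x = del ω x) → del ω p = 1 → del ω q = 1 →
          del (insert e ω) p = -1 → del (insert e ω) q = -1 → ∀ a b, a < b → b < L →
          (nx ω)^[a] c = p → (nx ω)^[b] c = q → KK (nx ω) (del ω) c k0 L = k0 + 4 := by
        intro p q h hδ h1 h2 h3 h4 a b hab hbL ha hb
        have ht := h.split_total hδ h1 h2 h3 h4 k0 0 hO hab hbL ha hb
        obtain ⟨g1, g2, g3⟩ := h.split hO hab hbL ha hb
        have hu := hO'.unique g3
        obtain ⟨o1, o2⟩ := h.split_other hO hab hbL ha hb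
        have hpm := orb_pm o2 0
        have hpm2 := orb_pm hO k0
        rw [← hu, hT'] at ht
        omega
      obtain ⟨a, haL, ha⟩ := (hO.inOrb_iff _).1 hp
      obtain ⟨b, hbL, hb⟩ := (hO.inOrb_iff _).1 hq
      rcases lt_trichotomy a b with hlt | heq | hgt
      · exact main _ _ hsw (del_off ω e hodd) d1 d2 d3 d4 a b hlt hbL ha hb
      · subst heq; exact absurd (ha.symm.trans hb) (in1_ne_in2 e)
      · exact main _ _ hsw.comm (fun x h1 h2 => del_off ω e hodd x h2 h1) d2 d1 d4 d3 b a hgt haL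
          hb ha
    -- both on the loop of c in the larger configuration
    have caseB : InOrb (nx (insert e ω)) c (in1 e) → InOrb (nx (insert e ω)) c (in2 e) →
        KK (nx ω) (del ω) c k0 L = k0 + 4 := by
      intro hp hq
      have main : ∀ p q, Swapped (nx (insert e ω)) (nx ω) p q →
          (∀ x, x ≠ p → x ≠ q → del ω x = del (insert e ω) x) → del (insert e ω) p = -1 →
          del (insert e ω) q = -1 → del ω p = 1 → del ω q = 1 → ∀ a b, a < b → b < L' →
          (nx (insert e ω))^[a] c = p → (nx (insert e ω))^[b] c = q →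
          KK (nx ω) (del ω) c k0 L = k0 + 4 := by
        intro p q h hδ h1 h2 h3 h4 a b hab hbL ha hb
        have ht := h.split_total hδ h1 h2 (by rw [h3]; norm_num) (by rw [h4]; norm_num) k0 0 hO'
          hab hbL ha hb
        obtain ⟨g1, g2, g3⟩ := h.split hO' hab hbL ha hb
        have hu := hO.unique g3
        obtain ⟨o1, o2⟩ := h.split_other hO' hab hbL ha hb
        have hpm := orb_pm o2 0
        have hpm2 := orb_pm hO k0
        rw [← hu, hT'] at ht
        omega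
      obtain ⟨a, haL, ha⟩ := (hO'.inOrb_iff _).1 hp
      obtain ⟨b, hbL, hb⟩ := (hO'.inOrb_iff _).1 hq
      rcases lt_trichotomy a b with hlt | heq | hgt
      · exact main _ _ hsw.symm hoff' d3 d4 d1 d2 a b hlt hbL ha hb
      · subst heq; exact absurd (ha.symm.trans hb) (in1_ne_in2 e)
      · exact main _ _ hsw.symm.comm (fun x h1 h2 => hoff' x h2 h1) d4 d3 d2 d1 b a hgt haL
          hb ha
    by_cases hp : InOrb (nx ω) c (in1 e) <;> by_cases hq : InOrb (nx ω) c (in2 e)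
    · exact caseA hp hq
    · obtain ⟨m1, m2, -, -⟩ := hsw.merge hO hMq hp hq
      exact caseB m1 m2
    · obtain ⟨m1, m2, -, -⟩ := hsw.comm.merge hO hMp hq hp
      exact caseB m2 m1
    · -- unchanged
      have hag : ∀ i, (nx (insert e ω))^[i] c = (nx ω)^[i] c := fun i =>
        hsw.agree c i (fun j _ => ⟨fun h => hp ⟨j, h⟩, fun h => hq ⟨j, h⟩⟩) i le_rfl
      have hO2 : Orb (nx (insert e ω)) c L := by
        refine ⟨hO.pos, by rw [hag, hO.per], ?_⟩
        intro i j hij hj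
        rw [hag, hag]; exact hO.inj i j hij hj
      have := hO'.unique hO2
      subst this
      rw [← hT']
      unfold KK
      congr 1
      apply Finset.sum_congr rfl
      intro j _
      rw [hag]
      apply hoff'
      · intro h; exact hp ⟨j, h⟩
      · intro h; exact hq ⟨j, h⟩

/-- **Total turning 4** for the loop of every outer corner, in every configuration `ω ⊆ E`. -/
theorem DomG.T4 {E : Finset (ℤ × ℤ)} (hD : DomG E) {ω : Finset (ℤ × ℤ)} (hω : ω ⊆ E) {c : ℤ × ℤ}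
    (hc : Out E c) {L : ℕ} (hO : Orb (nx ω) c L) (k0 : ℤ) :
    KK (nx ω) (del ω) c k0 L = k0 + 4 := hD.total _ ω hω rfl c hc L hO k0

/-- One edge: outer corners stay on the loop with the same index when an edge is added. -/
lemma DomG.step {E : Finset (ℤ × ℤ)} (hD : DomG E) {ω : Finset (ℤ × ℤ)} (hω : ω ⊆ E) {e : ℤ × ℤ}
    (heE : e ∈ E) (hen : e ∉ ω) {c0 c : ℤ × ℤ} (hc0 : Out E c0) (hc : Out E c) {L L' : ℕ} (k0 : ℤ)
    (hO : Orb (nx ω) c0 L) (hO' : Orb (nx (insert e ω)) c0 L') {i : ℕ} (hi : i < L)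
    (hic : (nx ω)^[i] c0 = c) : ∃ j < L', (nx (insert e ω))^[j] c0 = c ∧
      KK (nx (insert e ω)) (del (insert e ω)) c0 k0 j = KK (nx ω) (del ω) c0 k0 i := by
  classical
  have hodd := hD.odd e heE
  have hω' : insert e ω ⊆ E := insert_subset heE hω
  have hsw := swapped_insert ω e hodd hen
  have d1 : del ω (in1 e) = 1 := by unfold del; rw [lab_in1 e hodd, if_neg hen]
  have d2 : del ω (in2 e) = 1 := by unfold del; rw [lab_in2 e hodd, if_neg hen]
  have d3 : del (insert e ω) (in1 e) = -1 := by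
    unfold del; rw [lab_in1 e hodd, if_pos (mem_insert_self _ _)]
  have d4 : del (insert e ω) (in2 e) = -1 := by
    unfold del; rw [lab_in2 e hodd, if_pos (mem_insert_self _ _)]
  obtain ⟨Mp, hMp⟩ := exists_orb_nx ω (in1 e)
  obtain ⟨Mq, hMq⟩ := exists_orb_nx ω (in2 e)
  have hoff' : ∀ x, x ≠ in1 e → x ≠ in2 e → del ω x = del (insert e ω) x :=
    fun x h1 h2 => (del_off ω e hodd x h1 h2).symm
  have hT := hD.T4 hω hc0 hO k0
  have hT' := hD.T4 hω' hc0 hO' k0
  have caseB : InOrb (nx (insert e ω)) c0 (in1 e) → InOrb (nx (insert e ω)) c0 (in2 e) →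
      ∃ j < L', (nx (insert e ω))^[j] c0 = c ∧
      KK (nx (insert e ω)) (del (insert e ω)) c0 k0 j = KK (nx ω) (del ω) c0 k0 i := by
    intro hp hq
    obtain ⟨-, h2⟩ := hsw.symm.keep_idx (nx_injective _) (in1_ne_in2 e) (e := -1) hoff' d3 d4
      (by rw [d1]; norm_num) (by rw [d2]; norm_num) k0 hO' hO hT' hT hp hq
    obtain ⟨m, hm, hm1, hm2⟩ := h2 i hi
    exact ⟨m, hm, by rw [hm1, hic], hm2⟩
  by_cases hp : InOrb (nx ω) c0 (in1 e) <;> by_cases hq : InOrb (nx ω) c0 (in2 e)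
  · obtain ⟨h1, -⟩ := hsw.keep_idx (nx_injective _) (in1_ne_in2 e) (e := 1) (del_off ω e hodd) d1
      d2 d3 d4 k0 hO hO' hT hT' hp hq
    rcases h1 i hi with ⟨m, hm, hm1, hm2⟩ | ⟨M, hM, hM2⟩
    · exact ⟨m, hm, by rw [hm1, hic], hm2⟩
    · exfalso
      rw [hic] at hM hM2
      have h5 := hD.T4 hω' hc hM 0
      have h6 := hM2 0
      omega
  · obtain ⟨m1, m2, -, -⟩ := hsw.merge hO hMq hp hq
    exact caseB m1 m2
  · obtain ⟨m1, m2, -, -⟩ := hsw.comm.merge hO hMp hq hp
    exact caseB m2 m1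
  · have hag : ∀ i, (nx (insert e ω))^[i] c0 = (nx ω)^[i] c0 := fun i =>
      hsw.agree c0 i (fun j _ => ⟨fun h => hp ⟨j, h⟩, fun h => hq ⟨j, h⟩⟩) i le_rfl
    have hO2 : Orb (nx (insert e ω)) c0 L := by
      refine ⟨hO.pos, by rw [hag, hO.per], ?_⟩
      intro i j hij hj
      rw [hag, hag]; exact hO.inj i j hij hj
    have := hO'.unique hO2
    subst this
    refine ⟨i, hi, by rw [hag, hic], ?_⟩
    unfold KK
    congr 1
    apply Finset.sum_congr rfl
    intro j _
    rw [hag]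
    symm
    apply hoff'
    · intro h; exact hp ⟨j, h⟩
    · intro h; exact hq ⟨j, h⟩

/-- **Boundary indices do not depend on the configuration** (`c0` = base corner). -/
theorem DomG.index {E : Finset (ℤ × ℤ)} (hD : DomG E) {c0 c : ℤ × ℤ} (hc0 : Out E c0)
    (hc : Out E c) (k0 : ℤ) {LE : ℕ} (hE : Orb (nx E) c0 LE) : ∀ (n : ℕ) (ω : Finset (ℤ × ℤ)),
    ω ⊆ E → (E \ ω).card = n → ∀ L, Orb (nx ω) c0 L → ∀ i < L, (nx ω)^[i] c0 = c → ∃ j < LE,
      (nx E)^[j] c0 = c ∧ KK (nx E) (del E) c0 k0 j = KK (nx ω) (del ω) c0 k0 i := by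
  classical
  intro n
  induction n with
  | zero =>
    intro ω hω hn L hO i hi hic
    have hE' : ω = E := by
      apply subset_antisymm hω
      exact sdiff_eq_empty_iff_subset.1 (card_eq_zero.1 hn)
    subst hE'
    have := hO.unique hE
    subst this
    exact ⟨i, hi, hic, rfl⟩
  | succ n ih =>
    intro ω hω hn L hO i hi hic
    obtain ⟨e, he⟩ : (E \ ω).Nonempty := by
      rw [← card_pos]; omega
    rw [mem_sdiff] at he
    have hω' : insert e ω ⊆ E := insert_subset he.1 hω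
    have hcard : (E \ insert e ω).card = n := by
      rw [sdiff_insert, card_erase_of_mem (mem_sdiff.2 he)]; omega
    obtain ⟨L', hO'⟩ := exists_orb_nx (insert e ω) c0
    obtain ⟨j, hj, hj1, hj2⟩ := hD.step hω he.1 he.2 hc0 hc k0 hO hO' hi hic
    obtain ⟨k, hk, hk1, hk2⟩ := ih (insert e ω) hω' hcard L' hO' j hj hj1
    exact ⟨k, hk, hk1, by rw [hk2, hj2]⟩

/-- The index of an outer corner on the loop of `c0`, in every configuration, is its index in the
full configuration. -/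
theorem DomG.index_eq {E : Finset (ℤ × ℤ)} (hD : DomG E) {c0 c : ℤ × ℤ} (hc0 : Out E c0) {k0 : ℤ}
    {LE : ℕ} (hE : Orb (nx E) c0 LE) {j : ℕ} (hj : j < LE) (hjc : (nx E)^[j] c0 = c)
    {ω : Finset (ℤ × ℤ)} (hω : ω ⊆ E) {L : ℕ} (hO : Orb (nx ω) c0 L) {i : ℕ} (hi : i < L)
    (hic : (nx ω)^[i] c0 = c) :
    KK (nx ω) (del ω) c0 k0 i = KK (nx E) (del E) c0 k0 j := by
  have hc : Out E c := hc0.inOrb ⟨j, hjc⟩
  obtain ⟨j', h1, h2, h3⟩ := hD.index hc0 hc k0 hE _ ω hω rfl L hO i hi hic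
  have : j' = j := by
    by_contra hne
    rcases lt_or_gt_of_ne hne with h | h
    · exact hE.inj j' j h hj (by rw [h2, hjc])
    · exact hE.inj j j' h h1 (by rw [h2, hjc])
  rw [← h3, this]

end Pool.Agent.H5.Q1
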