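import Mathlib
import Pool.Agent.H5.Q1.DomG
import Pool.Agent.Q1.M4.Poly

set_option autoImplicit false
open Finset

/-! Finite sets of faces which are connected and have a connected complement are simply connected
lattice domains. The face with index `(a,b)` is the unit square with the upper right corner `(a,b)`
(index `fi` of the library). -/

namespace Pool.Agent.H5.Q1

open Pool.Agent.H75.Perc Pool.Agent.H75.TwoArm
open Pool.Agent.H75.TwoArm.StrandAux (fi_nxO)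
open Pool.Agent.Q1.M4 (Conn4 Adj4)

/-- The four labels of the sides of the face `f`. -/
def lf (f : ℤ × ℤ) : Finset (ℤ × ℤ) :=
  {(2 * f.1 - 1, 2 * f.2), (2 * f.1 - 1, 2 * f.2 - 2), (2 * f.1, 2 * f.2 - 1),
    (2 * f.1 - 2, 2 * f.2 - 1)}

/-- All labels of the sides of the faces of `F`. -/
def EF (F : Finset (ℤ × ℤ)) : Finset (ℤ × ℤ) := F.biUnion lf

lemma mem_lf {f e : ℤ × ℤ} : e ∈ lf f ↔ (e.1 = 2 * f.1 - 1 ∧ e.2 = 2 * f.2) ∨
    (e.1 = 2 * f.1 - 1 ∧ e.2 = 2 * f.2 - 2) ∨ (e.1 = 2 * f.1 ∧ e.2 = 2 * f.2 - 1) ∨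
    (e.1 = 2 * f.1 - 2 ∧ e.2 = 2 * f.2 - 1) := by
  unfold lf
  simp only [mem_insert, mem_singleton, Prod.ext_iff]

lemma mem_EF {F : Finset (ℤ × ℤ)} {e : ℤ × ℤ} : e ∈ EF F ↔ ∃ f ∈ F, e ∈ lf f := by
  unfold EF; rw [mem_biUnion]

lemma odd_EF {F : Finset (ℤ × ℤ)} {e : ℤ × ℤ} (h : e ∈ EF F) : (e.1 + e.2) % 2 = 1 := by
  obtain ⟨f, -, h⟩ := mem_EF.1 h
  rw [mem_lf] at h
  omega

lemma EF_mono {F F' : Finset (ℤ × ℤ)} (h : F ⊆ F') : EF F ⊆ EF F' :=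
  biUnion_subset_biUnion_of_subset_left _ h

/-- The two faces next to a label. -/
lemma lab_mem_lf {z f : ℤ × ℤ} : lab z ∈ lf f ↔ f = fi z ∨ f = fi (nxC z) := by
  obtain ⟨a, b⟩ := f
  rw [mem_lf]
  unfold fi
  rcases ty_cases z with ⟨-, h1, h2, h3, h4, -⟩ | ⟨-, h1, h2, h3, h4, -⟩ |
    ⟨-, h1, h2, h3, h4, -⟩ | ⟨-, h1, h2, h3, h4, -⟩ <;> rw [h3, h4] <;>
    simp only [Prod.mk.injEq] <;> omega

lemma lab_mem_EF {F : Finset (ℤ × ℤ)} {z : ℤ × ℤ} : lab z ∈ EF F ↔ fi z ∈ F ∨ fi (nxC z) ∈ F := by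
  rw [mem_EF]
  simp only [lab_mem_lf]
  constructor
  · rintro ⟨f, hf, rfl | rfl⟩
    · exact Or.inl hf
    · exact Or.inr hf
  · rintro (h | h)
    · exact ⟨_, h, Or.inl rfl⟩
    · exact ⟨_, h, Or.inr rfl⟩

/-- The label between two neighbouring faces. -/
lemma mem_EF_add {F : Finset (ℤ × ℤ)} {f g : ℤ × ℤ} (h : IsUnit4 (g - f)) :
    f + g - (1, 1) ∈ EF F ↔ f ∈ F ∨ g ∈ F := by
  have h1 : ∀ x : ℤ × ℤ, f + g - (1, 1) ∈ lf x ↔ x = f ∨ x = g := by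
    intro x
    obtain ⟨a, b⟩ := x
    rw [mem_lf]
    unfold IsUnit4 at h
    simp only [Prod.ext_iff, Prod.fst_sub, Prod.snd_sub, Prod.fst_add, Prod.snd_add] at h ⊢
    omega
  rw [mem_EF]
  simp only [h1]
  constructor
  · rintro ⟨f, hf, rfl | rfl⟩
    · exact Or.inl hf
    · exact Or.inr hf
  · rintro (h | h)
    · exact ⟨_, h, Or.inl rfl⟩
    · exact ⟨_, h, Or.inr rfl⟩

/-! ### The vertices of a connected region are connected -/

/-- `v` is a vertex of the face `f`. -/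
def VF (f v : ℤ × ℤ) : Prop := (v.1 = f.1 ∨ v.1 = f.1 - 1) ∧ (v.2 = f.2 ∨ v.2 = f.2 - 1)

lemma vf_of_VE {F : Finset (ℤ × ℤ)} {v : ℤ × ℤ} (h : v ∈ VE (EF F)) : ∃ f ∈ F, VF f v := by
  unfold VE at h
  rw [mem_union, mem_image, mem_image] at h
  have key : ∀ e ∈ EF F, ∃ f ∈ F, VF f (vx (in1 e)) ∧ VF f (vx (in2 e)) := by
    intro e he
    have hodd := odd_EF he
    obtain ⟨f, hf, h1⟩ := mem_EF.1 he
    refine ⟨f, hf, ?_⟩
    rw [mem_lf] at h1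
    unfold VF
    rcases vx_in1 e hodd with ⟨g1, g2, g3, g4⟩ | ⟨g1, g2, g3, g4⟩ <;> rw [g3, g4] <;>
      simp only <;> omega
  rcases h with ⟨e, he, rfl⟩ | ⟨e, he, rfl⟩
  · obtain ⟨f, hf, h1, -⟩ := key e he
    exact ⟨f, hf, h1⟩
  · obtain ⟨f, hf, -, h1⟩ := key e he
    exact ⟨f, hf, h1⟩

lemma co_VF {F : Finset (ℤ × ℤ)} {f v : ℤ × ℤ} (hf : f ∈ F) (hv : VF f v) : Co (EF F) f v := by
  have e1 : Ad (EF F) f (f.1 - 1, f.2) := by
    refine ⟨?_, mem_EF.2 ⟨f, hf, ?_⟩⟩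
    · unfold IsUnit4; simp only [Prod.ext_iff, Prod.fst_sub, Prod.snd_sub]; omega
    · rw [mem_lf]; simp only [Prod.fst_add, Prod.snd_add]; omega
  have e2 : Ad (EF F) f (f.1, f.2 - 1) := by
    refine ⟨?_, mem_EF.2 ⟨f, hf, ?_⟩⟩
    · unfold IsUnit4; simp only [Prod.ext_iff, Prod.fst_sub, Prod.snd_sub]; omega
    · rw [mem_lf]; simp only [Prod.fst_add, Prod.snd_add]; omega
  have e3 : Ad (EF F) (f.1, f.2 - 1) (f.1 - 1, f.2 - 1) := by
    refine ⟨?_, mem_EF.2 ⟨f, hf, ?_⟩⟩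
    · unfold IsUnit4; simp only [Prod.ext_iff, Prod.fst_sub, Prod.snd_sub]; omega
    · rw [mem_lf]; simp only [Prod.fst_add, Prod.snd_add]; omega
  obtain ⟨a, b⟩ := v
  unfold VF at hv
  simp only at hv
  rcases hv.1 with h1 | h1 <;> rcases hv.2 with h2 | h2 <;> rw [h1, h2]
  · exact Co.refl _ _
  · exact Relation.ReflTransGen.single e2
  · exact Relation.ReflTransGen.single e1
  · exact (Relation.ReflTransGen.single e2).tail e3

lemma co_faces {F : Finset (ℤ × ℤ)} {f g : ℤ × ℤ} (hf : f ∈ F)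
    (h : Relation.ReflTransGen (fun a b => Adj4 a b ∧ b ∈ (F : Set (ℤ × ℤ))) f g) :
    g ∈ F ∧ Co (EF F) f g := by
  induction h with
  | refl => exact ⟨hf, Co.refl _ _⟩
  | @tail b c _ hbc ih =>
    obtain ⟨hb, h1⟩ := ih
    obtain ⟨⟨k, hk⟩, hc⟩ := hbc
    have hc : c ∈ F := hc
    refine ⟨hc, h1.trans ?_⟩
    have h2 : ∃ v, VF b v ∧ VF c v := by
      rcases dir_cases k with ⟨-, e⟩ | ⟨-, e⟩ | ⟨-, e⟩ | ⟨-, e⟩ <;> rw [e] at hk <;> subst hk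
      · exact ⟨b, by unfold VF; simp, by unfold VF; simp⟩
      · exact ⟨b, by unfold VF; simp, by unfold VF; simp⟩
      · exact ⟨(b.1 - 1, b.2), by unfold VF; simp, by unfold VF; simp; omega⟩
      · exact ⟨(b.1, b.2 - 1), by unfold VF; simp, by unfold VF; simp; omega⟩
    obtain ⟨v, hv1, hv2⟩ := h2
    exact (co_VF hb hv1).trans (co_VF hc hv2).symm

/-- All vertices of a connected region are connected. -/
lemma co_VE {F : Finset (ℤ × ℤ)} (hF : Conn4 (F : Set (ℤ × ℤ))) {u v : ℤ × ℤ}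
    (hu : u ∈ VE (EF F)) (hv : v ∈ VE (EF F)) : Co (EF F) u v := by
  obtain ⟨f, hf, hfu⟩ := vf_of_VE hu
  obtain ⟨g, hg, hgv⟩ := vf_of_VE hv
  exact (co_VF hf hfu).symm.trans (((co_faces hf (hF f hf g hg)).2).trans (co_VF hg hgv))

/-! ### Faces outside -/

lemma dual_faces {F : Finset (ℤ × ℤ)} {f g : ℤ × ℤ} (hf : f ∉ F)
    (h : Relation.ReflTransGen (fun a b => Adj4 a b ∧ b ∈ ((F : Set (ℤ × ℤ))ᶜ)) f g) :
    g ∉ F ∧ ∃ E, Co (du E (EF F)) f g := by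
  classical
  induction h with
  | refl => exact ⟨hf, ∅, Co.refl _ _⟩
  | @tail b c _ hbc ih =>
    obtain ⟨hb, E, h1⟩ := ih
    obtain ⟨⟨k, hk⟩, hc⟩ := hbc
    have hc : c ∉ F := hc
    have hu : IsUnit4 (c - b) := by rw [hk, add_sub_cancel_left]; exact isUnit4_dir k
    refine ⟨hc, insert (b + c - (1, 1)) E, ?_⟩
    have h2 : du E (EF F) ⊆ du (insert (b + c - (1, 1)) E) (EF F) :=
      Pool.Agent.H69.Q1.du_mono_left (subset_insert _ _)
    refine (h1.mono h2).tail ⟨hu, ?_⟩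
    have h3 : b + c - (1, 1) ∈ insert (b + c - (1, 1)) E \ EF F := by
      rw [mem_sdiff, mem_EF_add hu]
      exact ⟨mem_insert_self _ _, fun h => h.elim hb hc⟩
    unfold du
    rw [mem_map]
    refine ⟨_, h3, ?_⟩
    refine Prod.ext ?_ ?_ <;> simp [sh1]

/-- **A connected finite set of faces with connected complement is a simply connected domain.** -/
theorem domG_EF {F : Finset (ℤ × ℤ)} (h1 : Conn4 (F : Set (ℤ × ℤ)))
    (h2 : Conn4 ((F : Set (ℤ × ℤ))ᶜ)) : DomG (EF F) := by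
  refine ⟨fun e he => odd_EF he, ?_⟩
  rintro c c' ⟨hc1, hc2⟩ ⟨hc1', hc2'⟩
  rw [lab_mem_EF, not_or] at hc2 hc2'
  obtain ⟨-, E, hE⟩ := dual_faces hc2.1 (h2 (fi c) hc2.1 (fi c') hc2'.1)
  exact Pool.Agent.H69.Q1.inOrb_of_co _ (co_VE h1 hc1 hc1') hE

/-- Along an orbit of the full configuration the face stays outside. -/
lemma fi_outside {F : Finset (ℤ × ℤ)} {c : ℤ × ℤ} (hc : fi c ∉ F) (i : ℕ) :
    fi ((nx (EF F))^[i] c) ∉ F := by
  induction i with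
  | zero => exact hc
  | succ i ih =>
    rw [Function.iterate_succ_apply']
    set z := (nx (EF F))^[i] c
    unfold nx
    by_cases hl : lab z ∈ EF F
    · rw [if_pos hl, fi_nxO]; exact ih
    · rw [if_neg hl]
      rw [lab_mem_EF, not_or] at hl
      exact hl.2

/-- **The outer corners** of a simply connected region: the vertex belongs to the region, the face
does not. -/
theorem out_EF_iff {F : Finset (ℤ × ℤ)} (h1 : Conn4 (F : Set (ℤ × ℤ)))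
    (h2 : Conn4 ((F : Set (ℤ × ℤ))ᶜ)) {c : ℤ × ℤ} :
    Out (EF F) c ↔ vx c ∈ VE (EF F) ∧ fi c ∉ F := by
  constructor
  · intro h
    refine ⟨h.vert, ?_⟩
    obtain ⟨c1, hb, i, rfl⟩ := h
    exact fi_outside (fun h => hb.2 (lab_mem_EF.2 (Or.inl h))) i
  · rintro ⟨h3, h4⟩
    obtain ⟨c1, hb, -⟩ := exists_lowest ⟨_, h3⟩
    refine ⟨c1, hb, ?_⟩
    have h5 := hb.2
    rw [lab_mem_EF, not_or] at h5
    obtain ⟨-, E, hE⟩ := dual_faces h5.1 (h2 (fi c1) h5.1 (fi c) h4)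
    exact Pool.Agent.H69.Q1.inOrb_of_co _ (co_VE h1 hb.1 h3) hE

end Pool.Agent.H5.Q1
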