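import Mathlib
import Pool.Agent.H5.Q1.Region

set_option autoImplicit false
open Finset

/-! Lattice polygons: the faces of `ℤ²` in the closed rectangles `[X i, X (i+1)] × [Y k, Y (k+1)]`,
`(i,k) ∈ Q`, for strictly monotone integer grid lines `X`, `Y`. -/

namespace Pool.Agent.H5.Q1

open Pool.Agent.H75.Perc Pool.Agent.H75.TwoArm
open Pool.Agent.Q1.M4 (Conn4 Adj4 Good Cell)

/-! ### One coordinate -/

lemma mono_lower {X : ℤ → ℤ} (hX : StrictMono X) {i j : ℤ} (h : i ≤ j) : X i + (j - i) ≤ X j := by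
  obtain ⟨n, rfl⟩ := Int.le.dest h
  induction n with
  | zero => simp
  | succ n ih =>
    have h1 := ih (by omega)
    have h2 : X (i + n) < X (i + (n + 1 : ℕ)) := hX (by push_cast; omega)
    push_cast at h2 ⊢
    omega

/-- Every integer lies in exactly one interval `(X i, X (i+1)]`. -/
lemma exists_ix {X : ℤ → ℤ} (hX : StrictMono X) (n : ℤ) : ∃ i, X i < n ∧ n ≤ X (i + 1) := by
  have h1 : ∀ z : ℤ, X z < n → z ≤ max 0 (n - X 0) := by
    intro z hz
    by_cases h0 : 0 ≤ z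
    · have := mono_lower hX h0
      omega
    · omega
  have h2 : ∃ z : ℤ, X z < n := by
    refine ⟨min 0 (n - X 0 - 1), ?_⟩
    have := mono_lower hX (min_le_left 0 (n - X 0 - 1))
    omega
  obtain ⟨i, hi1, hi2⟩ := Int.exists_greatest_of_bdd ⟨_, h1⟩ h2
  refine ⟨i, hi1, ?_⟩
  by_contra h3
  have := hi2 (i + 1) (by omega)
  omega

/-- Index of the interval `(X i, X (i+1)]` containing `n`. -/
noncomputable def ix (X : ℤ → ℤ) (n : ℤ) : ℤ :=
  open Classical in if h : ∃ i, X i < n ∧ n ≤ X (i + 1) then h.choose else 0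

lemma ix_spec {X : ℤ → ℤ} (hX : StrictMono X) (n : ℤ) : X (ix X n) < n ∧ n ≤ X (ix X n + 1) := by
  unfold ix
  rw [dif_pos (exists_ix hX n)]
  exact (exists_ix hX n).choose_spec

lemma ix_eq {X : ℤ → ℤ} (hX : StrictMono X) {n i : ℤ} (h1 : X i < n) (h2 : n ≤ X (i + 1)) :
    ix X n = i := by
  obtain ⟨h3, h4⟩ := ix_spec hX n
  have a : X i < X (ix X n + 1) := lt_of_lt_of_le h1 h4
  have b : X (ix X n) < X (i + 1) := lt_of_lt_of_le h3 h2
  rw [hX.lt_iff_lt] at a b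
  omega

lemma ix_iff {X : ℤ → ℤ} (hX : StrictMono X) {n i : ℤ} :
    ix X n = i ↔ X i < n ∧ n ≤ X (i + 1) :=
  ⟨fun h => h ▸ ix_spec hX n, fun h => ix_eq hX h.1 h.2⟩

/-- The cell containing the face `f`. -/
noncomputable def cellOf (X Y : ℤ → ℤ) (f : ℤ × ℤ) : Cell := (ix X f.1, ix Y f.2)

/-- The faces of the lattice polygon. -/
noncomputable def LF (Q : Finset Cell) (X Y : ℤ → ℤ) : Finset (ℤ × ℤ) :=
  Q.biUnion (fun c => Ioc (X c.1) (X (c.1 + 1)) ×ˢ Ioc (Y c.2) (Y (c.2 + 1)))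

lemma mem_LF {Q : Finset Cell} {X Y : ℤ → ℤ} {f : ℤ × ℤ} : f ∈ LF Q X Y ↔
    ∃ c ∈ Q, (X c.1 < f.1 ∧ f.1 ≤ X (c.1 + 1)) ∧ (Y c.2 < f.2 ∧ f.2 ≤ Y (c.2 + 1)) := by
  unfold LF
  simp only [mem_biUnion, mem_product, mem_Ioc]

lemma mem_LF_iff {Q : Finset Cell} {X Y : ℤ → ℤ} (hX : StrictMono X) (hY : StrictMono Y)
    {f : ℤ × ℤ} : f ∈ LF Q X Y ↔ cellOf X Y f ∈ Q := by
  rw [mem_LF]
  unfold cellOf
  constructor
  · rintro ⟨c, hc, h1, h2⟩
    rw [ix_eq hX h1.1 h1.2, ix_eq hY h2.1 h2.2]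
    exact hc
  · intro h
    exact ⟨_, h, ix_spec hX _, ix_spec hY _⟩

/-! ### Connectivity of the faces of a connected set of cells -/

/-- the faces of a set of cells -/
def FS (X Y : ℤ → ℤ) (S : Set Cell) : Set (ℤ × ℤ) := {f | cellOf X Y f ∈ S}

lemma coe_LF {Q : Finset Cell} {X Y : ℤ → ℤ} (hX : StrictMono X) (hY : StrictMono Y) :
    (LF Q X Y : Set (ℤ × ℤ)) = FS X Y (Q : Set Cell) := by
  ext f
  rw [mem_coe, mem_LF_iff hX hY]
  rfl

lemma coe_LF_compl {Q : Finset Cell} {X Y : ℤ → ℤ} (hX : StrictMono X) (hY : StrictMono Y) :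
    ((LF Q X Y : Set (ℤ × ℤ))ᶜ) = FS X Y ((Q : Set Cell)ᶜ) := by
  rw [coe_LF hX hY]; rfl

lemma adj4_symm {c d : ℤ × ℤ} (h : Adj4 c d) : Adj4 d c := by
  obtain ⟨k, hk⟩ := h
  refine ⟨k + 2, ?_⟩
  rcases dir_cases k with ⟨a, e⟩ | ⟨a, e⟩ | ⟨a, e⟩ | ⟨a, e⟩ <;>
  rcases dir_cases (k + 2) with ⟨b, f⟩ | ⟨b, f⟩ | ⟨b, f⟩ | ⟨b, f⟩ <;>
  first
  | (exfalso; omega)
  | (rw [hk, e, f]; refine Prod.ext ?_ ?_ <;> simp)

lemma adj4_east (a b : ℤ) : Adj4 (a, b) (a + 1, b) := ⟨0, by simp [dir]⟩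
lemma adj4_north (a b : ℤ) : Adj4 (a, b) (a, b + 1) := ⟨1, by simp [dir]⟩

/-- reachability inside a set of faces -/
abbrev Rch (S : Set (ℤ × ℤ)) (f g : ℤ × ℤ) : Prop :=
  Relation.ReflTransGen (fun a b => Adj4 a b ∧ b ∈ S) f g

lemma rch_symm {S : Set (ℤ × ℤ)} {f g : ℤ × ℤ} (hf : f ∈ S) (h : Rch S f g) : Rch S g f ∧ g ∈ S := by
  induction h with
  | refl => exact ⟨Relation.ReflTransGen.refl, hf⟩
  | @tail b c _ hbc ih =>
    exact ⟨Relation.ReflTransGen.head ⟨adj4_symm hbc.1, ih.2⟩ ih.1, hbc.2⟩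

/-- moving horizontally inside one cell -/
lemma rch_hor {X Y : ℤ → ℤ} (hX : StrictMono X) {S : Set Cell} {a a' b : ℤ}
    (h : cellOf X Y (a, b) ∈ S) (haa : a ≤ a') (hc : ix X a' = ix X a) :
    Rch (FS X Y S) (a, b) (a', b) := by
  obtain ⟨n, rfl⟩ := Int.le.dest haa
  clear haa
  induction n with
  | zero => simpa using Relation.ReflTransGen.refl
  | succ n ih =>
    have h1 := ix_spec hX a
    have h2 := (ix_iff hX).1 hc
    push_cast at h2
    have h3 : ix X (a + n) = ix X a := (ix_iff hX).2 ⟨by omega, by omega⟩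
    refine (ih h3).tail ⟨?_, ?_⟩
    · have := adj4_east (a + n) b
      push_cast
      rw [← add_assoc]; exact this
    · show cellOf X Y _ ∈ S
      unfold cellOf at h ⊢
      simp only at h ⊢
      rw [hc]; exact h

lemma rch_ver {X Y : ℤ → ℤ} (hY : StrictMono Y) {S : Set Cell} {a b b' : ℤ}
    (h : cellOf X Y (a, b) ∈ S) (hbb : b ≤ b') (hc : ix Y b' = ix Y b) :
    Rch (FS X Y S) (a, b) (a, b') := by
  obtain ⟨n, rfl⟩ := Int.le.dest hbb
  clear hbb
  induction n with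
  | zero => simpa using Relation.ReflTransGen.refl
  | succ n ih =>
    have h1 := ix_spec hY b
    have h2 := (ix_iff hY).1 hc
    push_cast at h2
    have h3 : ix Y (b + n) = ix Y b := (ix_iff hY).2 ⟨by omega, by omega⟩
    refine (ih h3).tail ⟨?_, ?_⟩
    · have := adj4_north a (b + n)
      push_cast
      rw [← add_assoc]; exact this
    · show cellOf X Y _ ∈ S
      unfold cellOf at h ⊢
      simp only at h ⊢
      rw [hc]; exact h

/-- two faces of the same cell -/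
lemma rch_cell {X Y : ℤ → ℤ} (hX : StrictMono X) (hY : StrictMono Y) {S : Set Cell} {f g : ℤ × ℤ}
    (h : cellOf X Y f ∈ S) (hfg : cellOf X Y g = cellOf X Y f) : Rch (FS X Y S) f g := by
  obtain ⟨a, b⟩ := f
  obtain ⟨a', b'⟩ := g
  unfold cellOf at hfg
  simp only [Prod.mk.injEq] at hfg
  -- via (a', b)
  have hmid : cellOf X Y (a', b) ∈ S := by
    have : cellOf X Y (a', b) = cellOf X Y (a, b) := by unfold cellOf; simp only [hfg.1]
    rw [this]; exact h
  have hg : cellOf X Y (a', b') ∈ S := by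
    have : cellOf X Y (a', b') = cellOf X Y (a, b) := by unfold cellOf; simp only [hfg.1, hfg.2]
    rw [this]; exact h
  have h1 : Rch (FS X Y S) (a, b) (a', b) := by
    rcases le_total a a' with haa | haa
    · exact rch_hor hX h haa hfg.1
    · exact (rch_symm (show (a', b) ∈ FS X Y S from hmid) (rch_hor hX hmid haa hfg.1.symm)).1
  have h2 : Rch (FS X Y S) (a', b) (a', b') := by
    rcases le_total b b' with hbb | hbb
    · exact rch_ver hY hmid hbb hfg.2
    · exact (rch_symm (show (a', b') ∈ FS X Y S from hg) (rch_ver hY hg hbb hfg.2.symm)).1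
  exact h1.trans h2

/-- The upper right face of a cell. -/
def ur (X Y : ℤ → ℤ) (c : Cell) : ℤ × ℤ := (X (c.1 + 1), Y (c.2 + 1))

lemma cellOf_ur {X Y : ℤ → ℤ} (hX : StrictMono X) (hY : StrictMono Y) (c : Cell) :
    cellOf X Y (ur X Y c) = c := by
  unfold cellOf ur
  refine Prod.ext ?_ ?_ <;> simp only
  · exact ix_eq hX (hX (by omega)) le_rfl
  · exact ix_eq hY (hY (by omega)) le_rfl

lemma ix_succ {X : ℤ → ℤ} (hX : StrictMono X) (i : ℤ) : ix X (X i + 1) = i :=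
  ix_eq hX (by omega) (by have := hX (show i < i + 1 by omega); omega)

/-- neighbouring cells -/
lemma rch_adj {X Y : ℤ → ℤ} (hX : StrictMono X) (hY : StrictMono Y) {S : Set Cell} {c d : Cell}
    (hc : c ∈ S) (hd : d ∈ S) (h : Adj4 c d) : Rch (FS X Y S) (ur X Y c) (ur X Y d) := by
  -- it suffices to treat east and north
  have east : ∀ c : Cell, c ∈ S → (c.1 + 1, c.2) ∈ S →
      Rch (FS X Y S) (ur X Y c) (ur X Y (c.1 + 1, c.2)) := by
    intro c hc hd
    have h1 : cellOf X Y (X (c.1 + 1) + 1, Y (c.2 + 1)) = (c.1 + 1, c.2) := by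
      unfold cellOf
      refine Prod.ext ?_ ?_ <;> simp only
      · exact ix_succ hX _
      · exact ix_eq hY (hY (by omega)) le_rfl
    have h2 : Rch (FS X Y S) (ur X Y c) (X (c.1 + 1) + 1, Y (c.2 + 1)) :=
      Relation.ReflTransGen.single ⟨adj4_east _ _, by
        show cellOf X Y _ ∈ S
        rw [h1]; exact hd⟩
    refine h2.trans (rch_cell hX hY (by rw [h1]; exact hd) ?_)
    rw [cellOf_ur hX hY, h1]
  have north : ∀ c : Cell, c ∈ S → (c.1, c.2 + 1) ∈ S →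
      Rch (FS X Y S) (ur X Y c) (ur X Y (c.1, c.2 + 1)) := by
    intro c hc hd
    have h1 : cellOf X Y (X (c.1 + 1), Y (c.2 + 1) + 1) = (c.1, c.2 + 1) := by
      unfold cellOf
      refine Prod.ext ?_ ?_ <;> simp only
      · exact ix_eq hX (hX (by omega)) le_rfl
      · exact ix_succ hY _
    have h2 : Rch (FS X Y S) (ur X Y c) (X (c.1 + 1), Y (c.2 + 1) + 1) :=
      Relation.ReflTransGen.single ⟨adj4_north _ _, by
        show cellOf X Y _ ∈ S
        rw [h1]; exact hd⟩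
    refine h2.trans (rch_cell hX hY (by rw [h1]; exact hd) ?_)
    rw [cellOf_ur hX hY, h1]
  obtain ⟨k, hk⟩ := h
  rcases dir_cases k with ⟨-, e⟩ | ⟨-, e⟩ | ⟨-, e⟩ | ⟨-, e⟩ <;> rw [e] at hk
  · have hk' : d = (c.1 + 1, c.2) := by rw [hk]; refine Prod.ext ?_ ?_ <;> simp
    rw [hk'] at hd ⊢
    exact east c hc hd
  · have hk' : d = (c.1, c.2 + 1) := by rw [hk]; refine Prod.ext ?_ ?_ <;> simp
    rw [hk'] at hd ⊢
    exact north c hc hd
  · have hk' : c = (d.1 + 1, d.2) := by rw [hk]; refine Prod.ext ?_ ?_ <;> simp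
    rw [hk'] at hc ⊢
    have h1 := east d hd hc
    exact (rch_symm (by show cellOf X Y _ ∈ S; rw [cellOf_ur hX hY]; exact hd) h1).1
  · have hk' : c = (d.1, d.2 + 1) := by rw [hk]; refine Prod.ext ?_ ?_ <;> simp
    rw [hk'] at hc ⊢
    have h1 := north d hd hc
    exact (rch_symm (by show cellOf X Y _ ∈ S; rw [cellOf_ur hX hY]; exact hd) h1).1

/-- The faces of a connected set of cells are connected. -/
theorem conn4_FS {X Y : ℤ → ℤ} (hX : StrictMono X) (hY : StrictMono Y) {S : Set Cell}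
    (hS : Conn4 S) : Conn4 (FS X Y S) := by
  intro f hf g hg
  have hf' : cellOf X Y f ∈ S := hf
  have hg' : cellOf X Y g ∈ S := hg
  have key : ∀ c d : Cell, c ∈ S → Relation.ReflTransGen (fun a b => Adj4 a b ∧ b ∈ S) c d →
      d ∈ S ∧ Rch (FS X Y S) (ur X Y c) (ur X Y d) := by
    intro c d hc h
    induction h with
    | refl => exact ⟨hc, Relation.ReflTransGen.refl⟩
    | @tail b e _ hbe ih => exact ⟨hbe.2, ih.2.trans (rch_adj hX hY ih.1 hbe.2 hbe.1)⟩
  have h1 := (key _ _ hf' (hS _ hf' _ hg')).2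
  have h2 : Rch (FS X Y S) f (ur X Y (cellOf X Y f)) :=
    rch_cell hX hY hf' (cellOf_ur hX hY _)
  have h3 : Rch (FS X Y S) (ur X Y (cellOf X Y g)) g :=
    rch_cell hX hY (by rw [cellOf_ur hX hY]; exact hg') (by rw [cellOf_ur hX hY])
  exact (h2.trans h1).trans h3

/-- **The lattice version of a good polyomino is a simply connected lattice domain.** -/
theorem domG_grid {Q : Finset Cell} (hQ : Good Q) {X Y : ℤ → ℤ} (hX : StrictMono X)
    (hY : StrictMono Y) : DomG (EF (LF Q X Y)) := by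
  refine domG_EF ?_ ?_
  · rw [coe_LF hX hY]; exact conn4_FS hX hY hQ.conn
  · rw [coe_LF_compl hX hY]; exact conn4_FS hX hY hQ.conn_compl

end Pool.Agent.H5.Q1
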