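import Mathlib
import Pool.Agent.H5.Q1.Grid

set_option autoImplicit false
set_option linter.unusedSimpArgs false
open Finset

/-! The loop of outer corners of a lattice polygon follows the boundary walk of the polyomino; the
turning index along a side is its lifted direction. -/

namespace Pool.Agent.H5.Q1

open Pool.Agent.H75.Perc Pool.Agent.H75.TwoArm
open Pool.Agent.Q1.M4 (Conn4 Adj4 Good Cell IsSide nextSide tail head PType isSide_next
  head_eq_tail_next)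

/-! ### Corners by vertex and type -/

/-- The corner of type `k mod 4` at the vertex `p` (`0,1,2,3` = SW, SE, NE, NW). -/
def oc (p : ℤ × ℤ) (k : ℤ) : ℤ × ℤ :=
  (2 * p.1 + (if k % 4 = 1 ∨ k % 4 = 2 then 1 else 0),
    2 * p.2 + (if k % 4 = 2 ∨ k % 4 = 3 then 1 else 0))

lemma oc_cases (p : ℤ × ℤ) (k : ℤ) : (k % 4 = 0 ∧ oc p k = (2 * p.1, 2 * p.2)) ∨
    (k % 4 = 1 ∧ oc p k = (2 * p.1 + 1, 2 * p.2)) ∨
    (k % 4 = 2 ∧ oc p k = (2 * p.1 + 1, 2 * p.2 + 1)) ∨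
    (k % 4 = 3 ∧ oc p k = (2 * p.1, 2 * p.2 + 1)) := by
  unfold oc
  have h : k % 4 = 0 ∨ k % 4 = 1 ∨ k % 4 = 2 ∨ k % 4 = 3 := by omega
  rcases h with h | h | h | h <;> simp [h]

lemma vx_oc (p : ℤ × ℤ) (k : ℤ) : vx (oc p k) = p := by
  unfold vx
  rcases oc_cases p k with ⟨-, h⟩ | ⟨-, h⟩ | ⟨-, h⟩ | ⟨-, h⟩ <;> rw [h] <;>
    refine Prod.ext ?_ ?_ <;> simp only <;> omega

lemma ty_oc (p : ℤ × ℤ) (k : ℤ) : ty (oc p k) = k % 4 := by
  rcases oc_cases p k with ⟨a, h⟩ | ⟨a, h⟩ | ⟨a, h⟩ | ⟨a, h⟩ <;> rw [h, a] <;> unfold ty <;>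
    simp only <;> split_ifs <;> omega

lemma oc_congr (p : ℤ × ℤ) {k l : ℤ} (h : k % 4 = l % 4) : oc p k = oc p l := by
  unfold oc; rw [h]

lemma eq_oc (c : ℤ × ℤ) : c = oc (vx c) (ty c) := by
  unfold vx
  obtain ⟨a, b⟩ := c
  rcases ty_cases (a, b) with ⟨h0, h1, h2, -⟩ | ⟨h0, h1, h2, -⟩ | ⟨h0, h1, h2, -⟩ |
    ⟨h0, h1, h2, -⟩ <;> rw [h0] <;> simp only at h1 h2 <;> unfold oc <;>
    refine Prod.ext ?_ ?_ <;> simp <;> omega

lemma oc_inj {p q : ℤ × ℤ} {k l : ℤ} (h : oc p k = oc q l) : p = q ∧ k % 4 = l % 4 := by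
  constructor
  · have := congrArg vx h
    rwa [vx_oc, vx_oc] at this
  · have := congrArg ty h
    rwa [ty_oc, ty_oc] at this

lemma nxC_oc (p : ℤ × ℤ) (k : ℤ) : nxC (oc p k) = oc p (k + 1) := by
  rcases oc_cases p k with ⟨a, h⟩ | ⟨a, h⟩ | ⟨a, h⟩ | ⟨a, h⟩ <;>
  rcases oc_cases p (k + 1) with ⟨b, g⟩ | ⟨b, g⟩ | ⟨b, g⟩ | ⟨b, g⟩ <;>
  first
  | (exfalso; omega)
  | (rw [h, g]
     unfold nxC
     simp only
     split_ifs <;> first | (exfalso; omega) | (refine Prod.ext ?_ ?_ <;> simp))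

lemma nxO_oc (p : ℤ × ℤ) (k : ℤ) : nxO (oc p k) = oc (p + dir (k - 1)) (k - 1) := by
  obtain ⟨x, y⟩ := p
  rcases oc_cases (x, y) k with ⟨a, h⟩ | ⟨a, h⟩ | ⟨a, h⟩ | ⟨a, h⟩ <;>
  rcases dir_cases (k - 1) with ⟨b, g⟩ | ⟨b, g⟩ | ⟨b, g⟩ | ⟨b, g⟩ <;>
  first
  | (exfalso; omega)
  | (rw [h, g]
     rcases ty_cases (oc (x, y) k) with ⟨h0, h1, h2, h3, h4, h5⟩ | ⟨h0, h1, h2, h3, h4, h5⟩ |
       ⟨h0, h1, h2, h3, h4, h5⟩ | ⟨h0, h1, h2, h3, h4, h5⟩ <;> rw [h] at h0 h1 h2 h5 <;>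
       simp only at h1 h2 <;> first
     | (exfalso; omega)
     | (rw [h5]
        unfold oc
        rw [b]
        simp
        try omega))

lemma fi_oc (p : ℤ × ℤ) (k : ℤ) : (k % 4 = 0 → fi (oc p k) = p) ∧
    (k % 4 = 1 → fi (oc p k) = (p.1 + 1, p.2)) ∧
    (k % 4 = 2 → fi (oc p k) = (p.1 + 1, p.2 + 1)) ∧
    (k % 4 = 3 → fi (oc p k) = (p.1, p.2 + 1)) := by
  unfold fi
  rcases oc_cases p k with ⟨a, h⟩ | ⟨a, h⟩ | ⟨a, h⟩ | ⟨a, h⟩ <;> rw [h] <;>
    refine ⟨fun _ => ?_, fun _ => ?_, fun _ => ?_, fun _ => ?_⟩ <;>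
    first
    | (exfalso; omega)
    | (refine Prod.ext ?_ ?_ <;> simp only <;> omega)

/-! ### Fine positions -/

/-- Fine position of a grid vertex. -/
def gp (X Y : ℤ → ℤ) (g : ℤ × ℤ) : ℤ × ℤ := (X g.1, Y g.2)

/-- Number of unit edges of a side. -/
def slen (X Y : ℤ → ℤ) (s : Cell × ℤ) : ℕ :=
  (if s.2 % 2 = 0 then X (s.1.1 + 1) - X s.1.1 else Y (s.1.2 + 1) - Y s.1.2).toNat

/-- The `j`-th vertex of a side. -/
def sp (X Y : ℤ → ℤ) (s : Cell × ℤ) (j : ℕ) : ℤ × ℤ :=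
  gp X Y (tail s) + ((j : ℤ) * (dir s.2).1, (j : ℤ) * (dir s.2).2)

lemma slen_pos {X Y : ℤ → ℤ} (hX : StrictMono X) (hY : StrictMono Y) (s : Cell × ℤ) :
    0 < slen X Y s := by
  have h1 : X s.1.1 < X (s.1.1 + 1) := hX (by omega)
  have h2 : Y s.1.2 < Y (s.1.2 + 1) := hY (by omega)
  unfold slen
  split_ifs <;> omega

lemma sp_zero (X Y : ℤ → ℤ) (s : Cell × ℤ) : sp X Y s 0 = gp X Y (tail s) := by
  unfold sp; simp

lemma sp_succ (X Y : ℤ → ℤ) (s : Cell × ℤ) (j : ℕ) : sp X Y s (j + 1) = sp X Y s j + dir s.2 := by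
  unfold sp
  refine Prod.ext ?_ ?_ <;> simp <;> ring

/-- All data of a side by its direction. -/
lemma side_cases {X Y : ℤ → ℤ} (hX : StrictMono X) (hY : StrictMono Y) (a b k : ℤ) :
    (k % 4 = 0 ∧ tail ((a, b), k) = (a, b) ∧ (slen X Y ((a, b), k) : ℤ) = X (a + 1) - X a ∧
      dir k = (1, 0) ∧ dir (k - 1) = (0, -1)) ∨
    (k % 4 = 1 ∧ tail ((a, b), k) = (a + 1, b) ∧ (slen X Y ((a, b), k) : ℤ) = Y (b + 1) - Y b ∧
      dir k = (0, 1) ∧ dir (k - 1) = (1, 0)) ∨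
    (k % 4 = 2 ∧ tail ((a, b), k) = (a + 1, b + 1) ∧
      (slen X Y ((a, b), k) : ℤ) = X (a + 1) - X a ∧ dir k = (-1, 0) ∧ dir (k - 1) = (0, 1)) ∨
    (k % 4 = 3 ∧ tail ((a, b), k) = (a, b + 1) ∧ (slen X Y ((a, b), k) : ℤ) = Y (b + 1) - Y b ∧
      dir k = (0, -1) ∧ dir (k - 1) = (-1, 0)) := by
  have h1 : X a < X (a + 1) := hX (by omega)
  have h2 : Y b < Y (b + 1) := hY (by omega)
  unfold slen tail
  simp only
  rcases dir_cases k with ⟨e, f⟩ | ⟨e, f⟩ | ⟨e, f⟩ | ⟨e, f⟩ <;>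
  rcases dir_cases (k - 1) with ⟨e', f'⟩ | ⟨e', f'⟩ | ⟨e', f'⟩ | ⟨e', f'⟩ <;>
  first
  | (exfalso; omega)
  | (rw [f, f', e]
     have h3 : k % 2 = 0 ∨ k % 2 = 1 := by omega
     rcases h3 with h3 | h3 <;> first
     | (exfalso; omega)
     | (simp [h3]; omega))

lemma sp_len {X Y : ℤ → ℤ} (hX : StrictMono X) (hY : StrictMono Y) (s : Cell × ℤ) :
    sp X Y s (slen X Y s) = gp X Y (head s) := by
  obtain ⟨⟨a, b⟩, k⟩ := s
  unfold sp head gp
  rcases side_cases hX hY a b k with ⟨e, h1, h2, h3, h4⟩ | ⟨e, h1, h2, h3, h4⟩ |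
    ⟨e, h1, h2, h3, h4⟩ | ⟨e, h1, h2, h3, h4⟩ <;> rw [h1, h2] <;> simp only [h3] <;>
    refine Prod.ext ?_ ?_ <;> simp

/-- The cells around the vertices of a side. -/
lemma cell_side {X Y : ℤ → ℤ} (hX : StrictMono X) (hY : StrictMono Y) (s : Cell × ℤ) {j : ℕ} :
    (j < slen X Y s → cellOf X Y (fi (oc (sp X Y s j) (s.2 + 1))) = s.1 + dir (s.2 - 1) ∧
      cellOf X Y (fi (oc (sp X Y s j) (s.2 + 2))) = s.1) ∧
    (1 ≤ j → j ≤ slen X Y s → cellOf X Y (fi (oc (sp X Y s j) s.2)) = s.1 + dir (s.2 - 1)) := by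
  obtain ⟨⟨a, b⟩, k⟩ := s
  have hX0 : X (a - 1) < X a := hX (by omega)
  have hX1 : X a < X (a + 1) := hX (by omega)
  have hX2 : X (a + 1) < X (a + 1 + 1) := hX (by omega)
  have hY0 : Y (b - 1) < Y b := hY (by omega)
  have hY1 : Y b < Y (b + 1) := hY (by omega)
  have hY2 : Y (b + 1) < Y (b + 1 + 1) := hY (by omega)
  have key : ∀ (f : ℤ × ℤ) (c : Cell), X c.1 < f.1 → f.1 ≤ X (c.1 + 1) → Y c.2 < f.2 →
      f.2 ≤ Y (c.2 + 1) → cellOf X Y f = c := by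
    intro f c h1 h2 h3 h4
    unfold cellOf
    rw [ix_eq hX h1 h2, ix_eq hY h3 h4]
  have e1 : a + -1 = a - 1 := by ring
  have e2 : b + -1 = b - 1 := by ring
  unfold sp gp
  simp only
  rcases side_cases hX hY a b k with ⟨e, h1, h2, h3, h4⟩ | ⟨e, h1, h2, h3, h4⟩ |
    ⟨e, h1, h2, h3, h4⟩ | ⟨e, h1, h2, h3, h4⟩ <;> rw [h1, h3, h4]
  · refine ⟨fun hj => ⟨?_, ?_⟩, fun hj1 hj => ?_⟩
    · rw [(fi_oc _ _).2.1 (by omega)]
      apply key <;> simp [e1, e2] <;> omega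
    · rw [(fi_oc _ _).2.2.1 (by omega)]
      apply key <;> simp [e1, e2] <;> omega
    · rw [(fi_oc _ _).1 (by omega)]
      apply key <;> simp [e1, e2] <;> omega
  · refine ⟨fun hj => ⟨?_, ?_⟩, fun hj1 hj => ?_⟩
    · rw [(fi_oc _ _).2.2.1 (by omega)]
      apply key <;> simp [e1, e2] <;> omega
    · rw [(fi_oc _ _).2.2.2 (by omega)]
      apply key <;> simp [e1, e2] <;> omega
    · rw [(fi_oc _ _).2.1 (by omega)]
      apply key <;> simp [e1, e2] <;> omega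
  · refine ⟨fun hj => ⟨?_, ?_⟩, fun hj1 hj => ?_⟩
    · rw [(fi_oc _ _).2.2.2 (by omega)]
      apply key <;> simp [e1, e2] <;> omega
    · rw [(fi_oc _ _).1 (by omega)]
      apply key <;> simp [e1, e2] <;> omega
    · rw [(fi_oc _ _).2.2.1 (by omega)]
      apply key <;> simp [e1, e2] <;> omega
  · refine ⟨fun hj => ⟨?_, ?_⟩, fun hj1 hj => ?_⟩
    · rw [(fi_oc _ _).1 (by omega)]
      apply key <;> simp [e1, e2] <;> omega
    · rw [(fi_oc _ _).2.1 (by omega)]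
      apply key <;> simp [e1, e2] <;> omega
    · rw [(fi_oc _ _).2.2.2 (by omega)]
      apply key <;> simp [e1, e2] <;> omega

/-- The cells around the end of a side. -/
lemma cell_head {X Y : ℤ → ℤ} (hX : StrictMono X) (hY : StrictMono Y) (s : Cell × ℤ) :
    cellOf X Y (fi (oc (gp X Y (head s)) (s.2 + 1))) = s.1 + dir s.2 + dir (s.2 - 1) ∧
      cellOf X Y (fi (oc (gp X Y (head s)) (s.2 + 2))) = s.1 + dir s.2 := by
  obtain ⟨⟨a, b⟩, k⟩ := s
  have hX0 : X (a - 1) < X a := hX (by omega)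
  have hX1 : X a < X (a + 1) := hX (by omega)
  have hX2 : X (a + 1) < X (a + 1 + 1) := hX (by omega)
  have hY0 : Y (b - 1) < Y b := hY (by omega)
  have hY1 : Y b < Y (b + 1) := hY (by omega)
  have hY2 : Y (b + 1) < Y (b + 1 + 1) := hY (by omega)
  have key : ∀ (f : ℤ × ℤ) (c : Cell), X c.1 < f.1 → f.1 ≤ X (c.1 + 1) → Y c.2 < f.2 →
      f.2 ≤ Y (c.2 + 1) → cellOf X Y f = c := by
    intro f c h1 h2 h3 h4
    unfold cellOf
    rw [ix_eq hX h1 h2, ix_eq hY h3 h4]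
  have e1 : a + -1 = a - 1 := by ring
  have e2 : b + -1 = b - 1 := by ring
  unfold head gp
  simp only
  rcases side_cases hX hY a b k with ⟨e, h1, h2, h3, h4⟩ | ⟨e, h1, h2, h3, h4⟩ |
    ⟨e, h1, h2, h3, h4⟩ | ⟨e, h1, h2, h3, h4⟩ <;> rw [h1, h3, h4]
  · refine ⟨?_, ?_⟩
    · rw [(fi_oc _ _).2.1 (by omega)]
      apply key <;> simp [e1, e2] <;> omega
    · rw [(fi_oc _ _).2.2.1 (by omega)]
      apply key <;> simp [e1, e2] <;> omega
  · refine ⟨?_, ?_⟩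
    · rw [(fi_oc _ _).2.2.1 (by omega)]
      apply key <;> simp [e1, e2] <;> omega
    · rw [(fi_oc _ _).2.2.2 (by omega)]
      apply key <;> simp [e1, e2] <;> omega
  · refine ⟨?_, ?_⟩
    · rw [(fi_oc _ _).2.2.2 (by omega)]
      apply key <;> simp [e1, e2] <;> omega
    · rw [(fi_oc _ _).1 (by omega)]
      apply key <;> simp [e1, e2] <;> omega
  · refine ⟨?_, ?_⟩
    · rw [(fi_oc _ _).1 (by omega)]
      apply key <;> simp [e1, e2] <;> omega
    · rw [(fi_oc _ _).2.1 (by omega)]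
      apply key <;> simp [e1, e2] <;> omega

/-! ### The walk -/

/-- `m` steps of the exploration of `E` lead from the corner `c` with index `k` to the corner `c'`
with index `k'`. -/
def Wk (E : Finset (ℤ × ℤ)) (c : ℤ × ℤ) (k : ℤ) (m : ℕ) (c' : ℤ × ℤ) (k' : ℤ) : Prop :=
  (nx E)^[m] c = c' ∧ KK (nx E) (del E) c k m = k'

lemma KK_add (f : ℤ × ℤ → ℤ × ℤ) (δ : ℤ × ℤ → ℤ) (c : ℤ × ℤ) (k : ℤ) (m n : ℕ) :
    KK f δ c k (m + n) = KK f δ (f^[m] c) (KK f δ c k m) n := by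
  induction n with
  | zero => rw [add_zero, KK_zero]
  | succ n ih =>
    rw [← add_assoc, KK_succ, KK_succ, ih, ← Function.iterate_add_apply, add_comm n m]

lemma Wk.trans {E : Finset (ℤ × ℤ)} {c c' c'' : ℤ × ℤ} {k k' k'' : ℤ} {m n : ℕ}
    (h : Wk E c k m c' k') (h' : Wk E c' k' n c'' k'') : Wk E c k (m + n) c'' k'' := by
  refine ⟨?_, ?_⟩
  · rw [add_comm, Function.iterate_add_apply, h.1, h'.1]
  · rw [KK_add, h.1, h.2, h'.2]

lemma Wk.refl (E : Finset (ℤ × ℤ)) (c : ℤ × ℤ) (k : ℤ) : Wk E c k 0 c k := ⟨rfl, KK_zero _ _ _ _⟩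

lemma Wk.closed {E : Finset (ℤ × ℤ)} {c : ℤ × ℤ} (k : ℤ) (h : lab c ∉ E) :
    Wk E c k 1 (nxC c) (k + 1) := by
  refine ⟨?_, ?_⟩
  · rw [Function.iterate_one]; unfold nx; rw [if_neg h]
  · rw [show (1 : ℕ) = 0 + 1 from rfl, KK_succ, KK_zero]
    simp only [Function.iterate_zero, id_eq]
    unfold del; rw [if_neg h]

lemma Wk.opened {E : Finset (ℤ × ℤ)} {c : ℤ × ℤ} (k : ℤ) (h : lab c ∈ E) :
    Wk E c k 1 (nxO c) (k - 1) := by
  refine ⟨?_, ?_⟩
  · rw [Function.iterate_one]; unfold nx; rw [if_pos h]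
  · rw [show (1 : ℕ) = 0 + 1 from rfl, KK_succ, KK_zero]
    simp only [Function.iterate_zero, id_eq]
    unfold del; rw [if_pos h]; ring

section walk

variable {Q : Finset Cell} {X Y : ℤ → ℤ}

lemma lab_oc_mem (hX : StrictMono X) (hY : StrictMono Y) {p : ℤ × ℤ} {k : ℤ} :
    lab (oc p k) ∈ EF (LF Q X Y) ↔
      cellOf X Y (fi (oc p k)) ∈ Q ∨ cellOf X Y (fi (oc p (k + 1))) ∈ Q := by
  rw [lab_mem_EF, mem_LF_iff hX hY, mem_LF_iff hX hY, nxC_oc]

lemma walk_edge (hX : StrictMono X) (hY : StrictMono Y) {s : Cell × ℤ} (hs : IsSide Q s) {j : ℕ}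
    (hj : j < slen X Y s) (κ : ℤ) : Wk (EF (LF Q X Y)) (oc (sp X Y s j) (s.2 + 1)) κ 1
      (oc (sp X Y s (j + 1)) s.2) (κ - 1) := by
  have h1 := ((cell_side hX hY s (j := j)).1 hj).2
  have h2 : lab (oc (sp X Y s j) (s.2 + 1)) ∈ EF (LF Q X Y) := by
    rw [lab_oc_mem hX hY]
    right
    rw [add_assoc, one_add_one_eq_two, h1]; exact hs.1
  have h3 := Wk.opened κ h2
  rw [nxO_oc, add_sub_cancel_right, ← sp_succ] at h3
  exact h3

lemma walk_vert (hX : StrictMono X) (hY : StrictMono Y) {s : Cell × ℤ} (hs : IsSide Q s) {j : ℕ}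
    (hj1 : 1 ≤ j) (hj : j < slen X Y s) (κ : ℤ) : Wk (EF (LF Q X Y)) (oc (sp X Y s j) s.2) κ 1
      (oc (sp X Y s j) (s.2 + 1)) (κ + 1) := by
  have h1 := ((cell_side hX hY s (j := j)).1 hj).1
  have h1' := (cell_side hX hY s (j := j)).2 hj1 hj.le
  have h2 : lab (oc (sp X Y s j) s.2) ∉ EF (LF Q X Y) := by
    rw [lab_oc_mem hX hY, h1, h1']
    exact fun h => hs.2 (h.elim id id)
  have h3 := Wk.closed κ h2
  rwa [nxC_oc] at h3

/-- The walk along a side. -/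
lemma walk_side (hX : StrictMono X) (hY : StrictMono Y) {s : Cell × ℤ} (hs : IsSide Q s) (κ : ℤ)
    (j : ℕ) : (j < slen X Y s → Wk (EF (LF Q X Y)) (oc (gp X Y (tail s)) (s.2 + 1)) κ (2 * j)
      (oc (sp X Y s j) (s.2 + 1)) κ) ∧ (j < slen X Y s → Wk (EF (LF Q X Y))
      (oc (gp X Y (tail s)) (s.2 + 1)) κ (2 * j + 1) (oc (sp X Y s (j + 1)) s.2) (κ - 1)) := by
  induction j with
  | zero =>
    have h0 := Wk.refl (EF (LF Q X Y)) (oc (gp X Y (tail s)) (s.2 + 1)) κ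
    refine ⟨fun _ => by rw [sp_zero]; exact h0, fun hj => ?_⟩
    have := walk_edge hX hY hs hj κ
    rw [sp_zero] at this
    exact this
  | succ j ih =>
    have key : j + 1 < slen X Y s → Wk (EF (LF Q X Y)) (oc (gp X Y (tail s)) (s.2 + 1)) κ
        (2 * (j + 1)) (oc (sp X Y s (j + 1)) (s.2 + 1)) κ := by
      intro hj
      have h1 := (ih.2 (by omega)).trans (walk_vert hX hY hs (by omega) hj (κ - 1))
      rw [sub_add_cancel] at h1
      exact h1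
    refine ⟨key, fun hj => ?_⟩
    exact (key hj).trans (walk_edge hX hY hs hj κ)

/-- Number of closed steps at the end of a side. -/
def tn (Q : Finset Cell) (s : Cell × ℤ) : ℕ := ((nextSide Q s).2 + 1 - s.2).toNat

lemma nextSide_snd (s : Cell × ℤ) :
    (nextSide Q s).2 = s.2 - 1 ∨ (nextSide Q s).2 = s.2 ∨ (nextSide Q s).2 = s.2 + 1 := by
  unfold nextSide
  split_ifs
  · exact Or.inl rfl
  · exact Or.inr (Or.inl rfl)
  · exact Or.inr (Or.inr rfl)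

lemma tn_cast (s : Cell × ℤ) : (tn Q s : ℤ) = (nextSide Q s).2 + 1 - s.2 := by
  unfold tn
  rcases nextSide_snd (Q := Q) s with h | h | h <;> omega

/-- The walk around the end of a side. -/
lemma walk_head (hX : StrictMono X) (hY : StrictMono Y) {s : Cell × ℤ} (hs : IsSide Q s) (κ : ℤ) :
    Wk (EF (LF Q X Y)) (oc (gp X Y (head s)) s.2) κ (tn Q s)
      (oc (gp X Y (head s)) ((nextSide Q s).2 + 1)) (κ + tn Q s) := by
  obtain ⟨h1, h2⟩ := cell_head hX hY s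
  have h0 := (cell_side hX hY s (j := slen X Y s)).2 (slen_pos hX hY s) le_rfl
  rw [sp_len hX hY] at h0
  by_cases ha : s.1 + dir s.2 + dir (s.2 - 1) ∈ Q
  · have e : nextSide Q s = (s.1 + dir s.2 + dir (s.2 - 1), s.2 - 1) := by
      unfold nextSide; rw [if_pos ha]
    have e' : tn Q s = 0 := by unfold tn; rw [e]; simp
    rw [e', e]
    simp only [sub_add_cancel, Nat.cast_zero, add_zero]
    exact Wk.refl _ _ _
  · have hl1 : lab (oc (gp X Y (head s)) s.2) ∉ EF (LF Q X Y) := by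
      rw [lab_oc_mem hX hY, h0, h1]
      exact fun h => h.elim hs.2 ha
    have w1 := Wk.closed κ hl1
    rw [nxC_oc] at w1
    by_cases hb : s.1 + dir s.2 ∈ Q
    · have e : nextSide Q s = (s.1 + dir s.2, s.2) := by
        unfold nextSide; rw [if_neg ha, if_pos hb]
      have e' : tn Q s = 1 := by unfold tn; rw [e]; simp
      rw [e', e]
      simpa using w1
    · have e : nextSide Q s = (s.1, s.2 + 1) := by
        unfold nextSide; rw [if_neg ha, if_neg hb]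
      have e' : tn Q s = 2 := by
        unfold tn; rw [e]
        have : s.2 + 1 + 1 - s.2 = 2 := by ring
        simp only [this]; rfl
      have hl2 : lab (oc (gp X Y (head s)) (s.2 + 1)) ∉ EF (LF Q X Y) := by
        rw [lab_oc_mem hX hY, h1, add_assoc s.2, one_add_one_eq_two, h2]
        exact fun h => h.elim ha hb
      have w2 := Wk.closed (κ + 1) hl2
      rw [nxC_oc] at w2
      have w3 := w1.trans w2
      rw [e', e]
      have : κ + 1 + 1 = κ + ((2 : ℕ) : ℤ) := by push_cast; ring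
      rw [this] at w3
      exact w3

/-- Number of steps of the walk from the beginning of a side to the beginning of the next one. -/
def stp (Q : Finset Cell) (X Y : ℤ → ℤ) (s : Cell × ℤ) : ℕ := 2 * slen X Y s - 1 + tn Q s

lemma stp_pos (hX : StrictMono X) (hY : StrictMono Y) (s : Cell × ℤ) : 0 < stp Q X Y s := by
  have := slen_pos hX hY s
  unfold stp; omega

/-- The corner at the beginning of a side. -/
def sc (X Y : ℤ → ℤ) (s : Cell × ℤ) : ℤ × ℤ := oc (gp X Y (tail s)) (s.2 + 1)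

/-- The walk along a side and around its end. -/
lemma walk_next (hX : StrictMono X) (hY : StrictMono Y) {s : Cell × ℤ} (hs : IsSide Q s) :
    Wk (EF (LF Q X Y)) (sc X Y s) (s.2 + 1) (stp Q X Y s) (sc X Y (nextSide Q s))
      ((nextSide Q s).2 + 1) := by
  have hp := slen_pos hX hY s
  have h1 := (walk_side hX hY hs (s.2 + 1) (slen X Y s - 1)).2 (by omega)
  have e1 : slen X Y s - 1 + 1 = slen X Y s := by omega
  rw [e1, sp_len hX hY, add_sub_cancel_right] at h1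
  have h2 := h1.trans (walk_head hX hY hs s.2)
  have e2 : 2 * (slen X Y s - 1) + 1 = 2 * slen X Y s - 1 := by omega
  rw [e2, tn_cast, ← head_eq_tail_next (Q := Q)] at h2
  have e3 : s.2 + ((nextSide Q s).2 + 1 - s.2) = (nextSide Q s).2 + 1 := by ring
  rw [e3] at h2
  exact h2

/-- Number of steps of the walk along the first `n` sides from `s`. -/
def SS (Q : Finset Cell) (X Y : ℤ → ℤ) (s : Cell × ℤ) (n : ℕ) : ℕ :=
  ∑ i ∈ range n, stp Q X Y ((nextSide Q)^[i] s)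

lemma isSide_iter {s : Cell × ℤ} (hs : IsSide Q s) (n : ℕ) : IsSide Q ((nextSide Q)^[n] s) := by
  induction n with
  | zero => exact hs
  | succ n ih => rw [Function.iterate_succ_apply']; exact isSide_next ih

/-- The walk along `n` sides. -/
theorem walk_iter (hX : StrictMono X) (hY : StrictMono Y) {s : Cell × ℤ} (hs : IsSide Q s)
    (n : ℕ) : Wk (EF (LF Q X Y)) (sc X Y s) (s.2 + 1) (SS Q X Y s n)
      (sc X Y ((nextSide Q)^[n] s)) (((nextSide Q)^[n] s).2 + 1) := by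
  induction n with
  | zero => exact Wk.refl _ _ _
  | succ n ih =>
    have h1 := ih.trans (walk_next hX hY (isSide_iter hs n))
    unfold SS at h1 ⊢
    rw [sum_range_succ, Function.iterate_succ_apply']
    exact h1

end walk

end Pool.Agent.H5.Q1
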