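import Mathlib
import Pool.Agent.H5.Q1.Sides

set_option autoImplicit false
set_option linter.unusedSimpArgs false
open Finset

/-! The loop of outer corners of the lattice version of a good polyomino: period, list of all outer
corners, turning indices in every configuration. -/

namespace Pool.Agent.H5.Q1

open Pool.Agent.H75.Perc Pool.Agent.H75.TwoArm
open Pool.Agent.H69.Q1 (exists_orb_nx inOrb_symm inOrb_trans)
open Pool.Agent.Q1.M4 (Conn4 Adj4 Good Cell IsSide nextSide tail head PType isSide_next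
  head_eq_tail_next)

lemma vx_mem_of_lab {E : Finset (ℤ × ℤ)} (hodd : ∀ e ∈ E, (e.1 + e.2) % 2 = 1) {z : ℤ × ℤ}
    (h : lab z ∈ E) : vx z ∈ VE E := by
  rcases (lab_eq_iff (lab z) z (hodd _ h)).1 rfl with h1 | h1
  · rw [h1]; exact (mem_VE h).1
  · rw [h1]; exact (mem_VE h).2

section poly

variable {Q : Finset Cell} {X Y : ℤ → ℤ}

/-- Outer corners of a lattice polygon. -/
theorem out_grid_iff (hQ : Good Q) (hX : StrictMono X) (hY : StrictMono Y) {c : ℤ × ℤ} :
    Out (EF (LF Q X Y)) c ↔ vx c ∈ VE (EF (LF Q X Y)) ∧ cellOf X Y (fi c) ∉ Q := by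
  rw [out_EF_iff, mem_LF_iff hX hY]
  · rw [coe_LF hX hY]; exact conn4_FS hX hY hQ.conn
  · rw [coe_LF_compl hX hY]; exact conn4_FS hX hY hQ.conn_compl

lemma out_sc (hQ : Good Q) (hX : StrictMono X) (hY : StrictMono Y) {s : Cell × ℤ}
    (hs : IsSide Q s) : Out (EF (LF Q X Y)) (sc X Y s) := by
  rw [out_grid_iff hQ hX hY]
  have h1 := (cell_side hX hY s (j := 0)).1 (slen_pos hX hY s)
  rw [sp_zero] at h1
  refine ⟨vx_mem_of_lab (fun e he => odd_EF he) ?_, ?_⟩
  · unfold sc
    rw [lab_oc_mem hX hY]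
    right
    rw [add_assoc, one_add_one_eq_two, h1.2]; exact hs.1
  · unfold sc; rw [h1.1]; exact hs.2

lemma KK_mul {f : ℤ × ℤ → ℤ × ℤ} {δ : ℤ × ℤ → ℤ} {c : ℤ × ℤ} {L : ℕ} (hO : Orb f c L) {t : ℤ}
    (hT : ∀ k, KK f δ c k L = k + t) (k : ℤ) (m : ℕ) : KK f δ c k (L * m) = k + t * m := by
  induction m with
  | zero => rw [mul_zero, KK_zero]; simp
  | succ m ih =>
    rw [mul_add, mul_one, KK_add, ih]
    have h1 : f^[L * m] c = c := by
      have := hO.mod (L * m)
      rw [Nat.mul_mod_right] at this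
      exact this.symm
    rw [h1, hT]
    push_cast; ring

lemma sc_add_four (s : Cell × ℤ) : sc X Y (s.1, s.2 + 4) = sc X Y s := by
  unfold sc
  have h1 : tail (s.1, s.2 + 4) = tail s := by
    unfold tail
    have : (s.2 + 4) % 4 = s.2 % 4 := by omega
    simp only [this]
  rw [h1]
  exact oc_congr _ (by simp only; omega)

/-- If the boundary walk closes after `N` sides with turning `4`, the loop of outer corners is
closed after exactly `SS N` steps. -/
theorem orb_SS (hQ : Good Q) (hX : StrictMono X) (hY : StrictMono Y) {s : Cell × ℤ}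
    (hs : IsSide Q s) {N : ℕ} (hper : (nextSide Q)^[N] s = (s.1, s.2 + 4)) :
    Orb (nx (EF (LF Q X Y))) (sc X Y s) (SS Q X Y s N) := by
  have hD := domG_grid hQ hX hY
  have ho := out_sc hQ hX hY hs
  obtain ⟨L, hL⟩ := exists_orb_nx (EF (LF Q X Y)) (sc X Y s)
  have hT : ∀ k, KK (nx (EF (LF Q X Y))) (del (EF (LF Q X Y))) (sc X Y s) k L = k + 4 :=
    fun k => hD.T4 (subset_refl _) ho hL k
  obtain ⟨w1, w2⟩ := walk_iter hX hY hs N
  rw [hper, sc_add_four] at w1
  rw [hper] at w2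
  simp only at w2
  have h1 : SS Q X Y s N % L = 0 := by
    by_contra hne
    have h2 := hL.mod (SS Q X Y s N)
    rw [w1] at h2
    exact hL.inj 0 (SS Q X Y s N % L) (Nat.pos_of_ne_zero hne) (Nat.mod_lt _ hL.pos) h2.symm
  obtain ⟨m, hm⟩ := Nat.dvd_of_mod_eq_zero h1
  rw [hm, KK_mul hL hT] at w2
  have h3 : m = 1 := by omega
  rw [hm, h3, mul_one]
  exact hL

lemma SS_succ (s : Cell × ℤ) (n : ℕ) :
    SS Q X Y s (n + 1) = SS Q X Y s n + stp Q X Y ((nextSide Q)^[n] s) := by
  unfold SS; rw [sum_range_succ]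

lemma SS_mono (s : Cell × ℤ) {m n : ℕ} (h : m ≤ n) : SS Q X Y s m ≤ SS Q X Y s n := by
  unfold SS
  exact sum_le_sum_of_subset (range_subset_range.2 h)

/-- Position on the walk of the first outer corner of the `j`-th vertex of a side. -/
lemma walk_first (hX : StrictMono X) (hY : StrictMono Y) {s : Cell × ℤ} (hs : IsSide Q s) (n : ℕ)
    {j : ℕ} (hj : j < slen X Y ((nextSide Q)^[n] s)) :
    Wk (EF (LF Q X Y)) (sc X Y s) (s.2 + 1) (SS Q X Y s n + (2 * j + 1))
      (oc (sp X Y ((nextSide Q)^[n] s) (j + 1)) ((nextSide Q)^[n] s).2)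
      ((nextSide Q)^[n] s).2 := by
  have h1 := (walk_iter hX hY hs n).trans
    ((walk_side hX hY (isSide_iter hs n) (((nextSide Q)^[n] s).2 + 1) j).2 hj)
  rw [add_sub_cancel_right] at h1
  exact h1

/-- Position on the walk of the second outer corner of the `j`-th vertex of a side. -/
lemma walk_second (hX : StrictMono X) (hY : StrictMono Y) {s : Cell × ℤ} (hs : IsSide Q s) (n : ℕ)
    {j : ℕ} (hj : j < slen X Y ((nextSide Q)^[n] s)) :
    Wk (EF (LF Q X Y)) (sc X Y s) (s.2 + 1) (SS Q X Y s n + 2 * j)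
      (oc (sp X Y ((nextSide Q)^[n] s) j) (((nextSide Q)^[n] s).2 + 1))
      (((nextSide Q)^[n] s).2 + 1) :=
  (walk_iter hX hY hs n).trans
    ((walk_side hX hY (isSide_iter hs n) (((nextSide Q)^[n] s).2 + 1) j).1 hj)

/-- Position on the walk of the middle outer corner at a convex grid vertex. -/
lemma walk_middle (hX : StrictMono X) (hY : StrictMono Y) {s : Cell × ℤ} (hs : IsSide Q s) (n : ℕ)
    (hl : (nextSide Q ((nextSide Q)^[n] s)).2 = ((nextSide Q)^[n] s).2 + 1) :
    Wk (EF (LF Q X Y)) (sc X Y s) (s.2 + 1)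
      (SS Q X Y s n + 2 * slen X Y ((nextSide Q)^[n] s))
      (oc (gp X Y (head ((nextSide Q)^[n] s))) (((nextSide Q)^[n] s).2 + 1))
      (((nextSide Q)^[n] s).2 + 1) := by
  set t := (nextSide Q)^[n] s with ht
  have hst : IsSide Q t := isSide_iter hs n
  have hp := slen_pos hX hY t
  have h1 := walk_first hX hY hs n (j := slen X Y t - 1) (by rw [← ht]; omega)
  rw [← ht] at h1
  have e1 : slen X Y t - 1 + 1 = slen X Y t := by omega
  rw [e1, sp_len hX hY] at h1
  -- the label at this corner is closed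
  have hb : t.1 + dir t.2 + dir (t.2 - 1) ∉ Q ∧ t.1 + dir t.2 ∉ Q := by
    unfold nextSide at hl
    split_ifs at hl with g1 g2
    · simp only at hl; omega
    · simp only at hl; omega
    · exact ⟨g1, g2⟩
  have hc := (cell_head hX hY t).1
  have h0 := (cell_side hX hY t (j := slen X Y t)).2 hp le_rfl
  rw [sp_len hX hY] at h0
  have hlab : lab (oc (gp X Y (head t)) t.2) ∉ EF (LF Q X Y) := by
    rw [lab_oc_mem hX hY, h0, hc]
    exact fun h => h.elim hst.2 hb.1
  have w1 := Wk.closed t.2 hlab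
  rw [nxC_oc] at w1
  have h2 := h1.trans w1
  have e2 : SS Q X Y s n + (2 * (slen X Y t - 1) + 1) + 1 = SS Q X Y s n + 2 * slen X Y t := by
    omega
  rw [e2] at h2
  exact h2

/-- **All outer corners**: the first and second outer corners of the vertices of the sides and the
middle outer corners of the convex grid vertices. -/
theorem out_cases (hQ : Good Q) (hX : StrictMono X) (hY : StrictMono Y) {s : Cell × ℤ}
    (hs : IsSide Q s) {N : ℕ} (hper : (nextSide Q)^[N] s = (s.1, s.2 + 4)) {z : ℤ × ℤ}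
    (hz : Out (EF (LF Q X Y)) z) : ∃ n < N,
      (∃ j < slen X Y ((nextSide Q)^[n] s),
        z = oc (sp X Y ((nextSide Q)^[n] s) (j + 1)) ((nextSide Q)^[n] s).2) ∨
      (∃ j < slen X Y ((nextSide Q)^[n] s),
        z = oc (sp X Y ((nextSide Q)^[n] s) j) (((nextSide Q)^[n] s).2 + 1)) ∨
      ((nextSide Q ((nextSide Q)^[n] s)).2 = ((nextSide Q)^[n] s).2 + 1 ∧
        z = oc (gp X Y (head ((nextSide Q)^[n] s))) (((nextSide Q)^[n] s).2 + 1)) := by
  have hO := orb_SS hQ hX hY hs hper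
  have hin := (domG_grid hQ hX hY).out_loop (out_sc hQ hX hY hs) hz
  obtain ⟨i, hi, hiz⟩ := (hO.inOrb_iff z).1 hin
  -- the side
  have key : ∀ M : ℕ, i < SS Q X Y s M → ∃ n < M, SS Q X Y s n ≤ i ∧ i < SS Q X Y s (n + 1) := by
    intro M
    induction M with
    | zero => intro h; unfold SS at h; simp at h
    | succ M ih =>
      intro h
      by_cases h1 : i < SS Q X Y s M
      · obtain ⟨n, hn, h2⟩ := ih h1
        exact ⟨n, by omega, h2⟩
      · exact ⟨M, by omega, by omega, h⟩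
  obtain ⟨n, hn, h1, h2⟩ := key N hi
  refine ⟨n, hn, ?_⟩
  rw [SS_succ] at h2
  have hp := slen_pos hX hY ((nextSide Q)^[n] s)
  unfold stp at h2
  by_cases h3 : i - SS Q X Y s n < 2 * slen X Y ((nextSide Q)^[n] s)
  · by_cases h4 : (i - SS Q X Y s n) % 2 = 0
    · right; left
      refine ⟨(i - SS Q X Y s n) / 2, by omega, ?_⟩
      have h5 := (walk_second hX hY hs n (j := (i - SS Q X Y s n) / 2) (by omega)).1
      have e : SS Q X Y s n + 2 * ((i - SS Q X Y s n) / 2) = i := by omega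
      rw [e, hiz] at h5
      exact h5
    · left
      refine ⟨(i - SS Q X Y s n) / 2, by omega, ?_⟩
      have h5 := (walk_first hX hY hs n (j := (i - SS Q X Y s n) / 2) (by omega)).1
      have e : SS Q X Y s n + (2 * ((i - SS Q X Y s n) / 2) + 1) = i := by omega
      rw [e, hiz] at h5
      exact h5
  · right; right
    have ht := tn_cast (Q := Q) ((nextSide Q)^[n] s)
    rcases nextSide_snd (Q := Q) ((nextSide Q)^[n] s) with h4 | h4 | h4
    · omega
    · omega
    · refine ⟨h4, ?_⟩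
      have h5 := (walk_middle hX hY hs n h4).1
      have e : SS Q X Y s n + 2 * slen X Y ((nextSide Q)^[n] s) = i := by omega
      rw [e, hiz] at h5
      exact h5

/-- **Index of the outer corners, general form**: position `m < SS N` on the walk of the full
configuration, visited at time `i` in the configuration `ω`. -/
theorem index_walk (hQ : Good Q) (hX : StrictMono X) (hY : StrictMono Y) {s : Cell × ℤ}
    (hs : IsSide Q s) {N : ℕ} (hper : (nextSide Q)^[N] s = (s.1, s.2 + 4)) {m : ℕ} {z : ℤ × ℤ}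
    {k : ℤ} (hw : Wk (EF (LF Q X Y)) (sc X Y s) (s.2 + 1) m z k) (hm : m < SS Q X Y s N)
    {ω : Finset (ℤ × ℤ)} (hω : ω ⊆ EF (LF Q X Y)) {L : ℕ} (hO : Orb (nx ω) (sc X Y s) L) {i : ℕ}
    (hi : i < L) (hiz : (nx ω)^[i] (sc X Y s) = z) :
    KK (nx ω) (del ω) (sc X Y s) (s.2 + 1) i = k := by
  have h1 := (domG_grid hQ hX hY).index_eq (out_sc hQ hX hY hs) (k0 := s.2 + 1)
    (orb_SS hQ hX hY hs hper) hm hw.1 hω hO hi hiz
  rw [h1, hw.2]

/-- Index of the first outer corners of a side (except at the last vertex of the last side). -/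
theorem index_first (hQ : Good Q) (hX : StrictMono X) (hY : StrictMono Y) {s : Cell × ℤ}
    (hs : IsSide Q s) {N : ℕ} (hper : (nextSide Q)^[N] s = (s.1, s.2 + 4)) {n : ℕ} (hn : n < N)
    {j : ℕ} (hj : j < slen X Y ((nextSide Q)^[n] s))
    (hlast : n + 1 < N ∨ j + 1 < slen X Y ((nextSide Q)^[n] s))
    {ω : Finset (ℤ × ℤ)} (hω : ω ⊆ EF (LF Q X Y)) {L : ℕ} (hO : Orb (nx ω) (sc X Y s) L) {i : ℕ}
    (hi : i < L) (hiz : (nx ω)^[i] (sc X Y s) =
      oc (sp X Y ((nextSide Q)^[n] s) (j + 1)) ((nextSide Q)^[n] s).2) :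
    KK (nx ω) (del ω) (sc X Y s) (s.2 + 1) i = ((nextSide Q)^[n] s).2 := by
  refine index_walk hQ hX hY hs hper (walk_first hX hY hs n hj) ?_ hω hO hi hiz
  have h1 := SS_succ (Q := Q) (X := X) (Y := Y) s n
  have h2 := SS_mono (Q := Q) (X := X) (Y := Y) s (show n + 1 ≤ N by omega)
  unfold stp at h1
  rcases hlast with h | h
  · have h3 := SS_succ (Q := Q) (X := X) (Y := Y) s (n + 1)
    have h4 := SS_mono (Q := Q) (X := X) (Y := Y) s (show n + 1 + 1 ≤ N by omega)
    have h5 := stp_pos (Q := Q) hX hY ((nextSide Q)^[n + 1] s)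
    omega
  · omega

/-- Index of the second outer corners of a side. -/
theorem index_second (hQ : Good Q) (hX : StrictMono X) (hY : StrictMono Y) {s : Cell × ℤ}
    (hs : IsSide Q s) {N : ℕ} (hper : (nextSide Q)^[N] s = (s.1, s.2 + 4)) {n : ℕ} (hn : n < N)
    {j : ℕ} (hj : j < slen X Y ((nextSide Q)^[n] s))
    {ω : Finset (ℤ × ℤ)} (hω : ω ⊆ EF (LF Q X Y)) {L : ℕ} (hO : Orb (nx ω) (sc X Y s) L) {i : ℕ}
    (hi : i < L) (hiz : (nx ω)^[i] (sc X Y s) =
      oc (sp X Y ((nextSide Q)^[n] s) j) (((nextSide Q)^[n] s).2 + 1)) :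
    KK (nx ω) (del ω) (sc X Y s) (s.2 + 1) i = ((nextSide Q)^[n] s).2 + 1 := by
  refine index_walk hQ hX hY hs hper (walk_second hX hY hs n hj) ?_ hω hO hi hiz
  have h1 := SS_succ (Q := Q) (X := X) (Y := Y) s n
  have h2 := SS_mono (Q := Q) (X := X) (Y := Y) s (show n + 1 ≤ N by omega)
  unfold stp at h1
  omega

end poly

end Pool.Agent.H5.Q1
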