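import Mathlib
import Pool.Agent.H5.Q1.Index

set_option autoImplicit false
set_option linter.unusedSimpArgs false
open Finset

/-! The loop of the base corner of a lattice polygon in a configuration `ω` which contains the wired
arc: connection criterion for outer corners, the part of the loop along the wired arc. -/

namespace Pool.Agent.H5.Q1

open Pool.Agent.H75.Perc Pool.Agent.H75.TwoArm
open Pool.Agent.H69.Q1 (exists_orb_nx inOrb_symm inOrb_trans du_anti inOrb_of_co)
open Pool.Agent.Q1.M4 (Conn4 Adj4 Good Cell IsSide nextSide tail head PType isSide_next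
  head_eq_tail_next)

section poly

variable {Q : Finset Cell} {X Y : ℤ → ℤ}

/-- **Outer corners on the loop of an outer corner**, in any configuration: iff the vertices are
connected. -/
theorem out_inOrb_iff (hQ : Good Q) (hX : StrictMono X) (hY : StrictMono Y) {c z : ℤ × ℤ}
    (hc : Out (EF (LF Q X Y)) c) (hz : Out (EF (LF Q X Y)) z) {ω : Finset (ℤ × ℤ)}
    (hω : ω ⊆ EF (LF Q X Y)) : InOrb (nx ω) c z ↔ Co ω (vx c) (vx z) := by
  constructor
  · rintro ⟨i, rfl⟩
    exact Pool.Agent.H69.Q1.co_orb ω c i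
  · intro h
    rw [out_grid_iff hQ hX hY, ← mem_LF_iff hX hY] at hc hz
    have h2 : Conn4 ((LF Q X Y : Set (ℤ × ℤ))ᶜ) := by
      rw [coe_LF_compl hX hY]; exact conn4_FS hX hY hQ.conn_compl
    obtain ⟨-, E, hE⟩ := dual_faces hc.2 (h2 (fi c) hc.2 (fi z) hz.2)
    exact inOrb_of_co ω h (hE.mono (du_anti hω))

/-- The label of the `j`-th unit edge of a side. -/
def sl (X Y : ℤ → ℤ) (s : Cell × ℤ) (j : ℕ) : ℤ × ℤ := lab (oc (sp X Y s j) (s.2 + 1))

lemma lab_oc (p : ℤ × ℤ) (k : ℤ) : lab (oc p k) = (2 * p.1, 2 * p.2) + dir (k - 1) := by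
  obtain ⟨x, y⟩ := p
  rcases oc_cases (x, y) k with ⟨a, h⟩ | ⟨a, h⟩ | ⟨a, h⟩ | ⟨a, h⟩ <;>
  rcases dir_cases (k - 1) with ⟨b, g⟩ | ⟨b, g⟩ | ⟨b, g⟩ | ⟨b, g⟩ <;>
  first
  | (exfalso; omega)
  | (rcases ty_cases (oc (x, y) k) with ⟨h0, h1, h2, h3, -⟩ | ⟨h0, h1, h2, h3, -⟩ |
       ⟨h0, h1, h2, h3, -⟩ | ⟨h0, h1, h2, h3, -⟩ <;> rw [h] at h0 h1 h2 h3 <;>
       simp only at h1 h2 <;> first
     | (exfalso; omega)
     | (rw [h, h3, g]; refine Prod.ext ?_ ?_ <;> simp <;> omega))

lemma sl_eq (s : Cell × ℤ) (j : ℕ) :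
    sl X Y s j = (2 * (sp X Y s j).1, 2 * (sp X Y s j).2) + dir s.2 := by
  unfold sl; rw [lab_oc, add_sub_cancel_right]

lemma sl_mem (hX : StrictMono X) (hY : StrictMono Y) {s : Cell × ℤ} (hs : IsSide Q s) {j : ℕ}
    (hj : j < slen X Y s) : sl X Y s j ∈ EF (LF Q X Y) := by
  unfold sl
  rw [lab_oc_mem hX hY]
  right
  rw [add_assoc, one_add_one_eq_two, ((cell_side hX hY s (j := j)).1 hj).2]; exact hs.1

/-- The labels of the unit edges of a side. -/
def SL (X Y : ℤ → ℤ) (s : Cell × ℤ) : Finset (ℤ × ℤ) := (range (slen X Y s)).image (sl X Y s)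

/-- The labels of the unit edges of the sides number `m, …, N-1`. -/
def WS (Q : Finset Cell) (X Y : ℤ → ℤ) (s : Cell × ℤ) (m N : ℕ) : Finset (ℤ × ℤ) :=
  (Ico m N).biUnion (fun n => SL X Y ((nextSide Q)^[n] s))

lemma mem_WS {s : Cell × ℤ} {m N : ℕ} {e : ℤ × ℤ} : e ∈ WS Q X Y s m N ↔
    ∃ n, (m ≤ n ∧ n < N) ∧ ∃ j < slen X Y ((nextSide Q)^[n] s), sl X Y ((nextSide Q)^[n] s) j = e := by
  unfold WS SL
  simp only [mem_biUnion, mem_Ico, mem_image, mem_range]

lemma WS_sub (hX : StrictMono X) (hY : StrictMono Y) {s : Cell × ℤ} (hs : IsSide Q s) (m N : ℕ) :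
    WS Q X Y s m N ⊆ EF (LF Q X Y) := by
  intro e he
  obtain ⟨n, -, j, hj, rfl⟩ := mem_WS.1 he
  exact sl_mem hX hY (isSide_iter hs n) hj

/-- The labels met by the full walk which lie in the region are labels of sides. -/
lemma lab_walk (hX : StrictMono X) (hY : StrictMono Y) {s : Cell × ℤ} (hs : IsSide Q s) {n i : ℕ}
    (h1 : SS Q X Y s n ≤ i) (h2 : i < SS Q X Y s (n + 1))
    (hl : lab ((nx (EF (LF Q X Y)))^[i] (sc X Y s)) ∈ EF (LF Q X Y)) :
    ∃ j < slen X Y ((nextSide Q)^[n] s), i = SS Q X Y s n + 2 * j ∧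
      sl X Y ((nextSide Q)^[n] s) j = lab ((nx (EF (LF Q X Y)))^[i] (sc X Y s)) := by
  set t := (nextSide Q)^[n] s with ht
  have hst : IsSide Q t := isSide_iter hs n
  rw [SS_succ, ← ht] at h2
  have hp := slen_pos hX hY t
  unfold stp at h2
  by_cases h3 : i - SS Q X Y s n < 2 * slen X Y t
  · by_cases h4 : (i - SS Q X Y s n) % 2 = 0
    · refine ⟨(i - SS Q X Y s n) / 2, by omega, by omega, ?_⟩
      have h5 := (walk_second hX hY hs n (j := (i - SS Q X Y s n) / 2) (by rw [← ht]; omega)).1
      have e : SS Q X Y s n + 2 * ((i - SS Q X Y s n) / 2) = i := by omega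
      rw [e, ← ht] at h5
      unfold sl
      rw [h5]
    · exfalso
      have h5 := (walk_first hX hY hs n (j := (i - SS Q X Y s n) / 2) (by rw [← ht]; omega)).1
      have e : SS Q X Y s n + (2 * ((i - SS Q X Y s n) / 2) + 1) = i := by omega
      rw [e, ← ht] at h5
      rw [h5, lab_oc_mem hX hY] at hl
      set j := (i - SS Q X Y s n) / 2 with hj
      have c1 := (cell_side hX hY t (j := j + 1)).2 (by omega) (by omega)
      rw [c1] at hl
      by_cases h6 : j + 1 < slen X Y t
      · have c2 := ((cell_side hX hY t (j := j + 1)).1 h6).1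
        rw [c2] at hl
        exact hst.2 (hl.elim id id)
      · have e7 : j + 1 = slen X Y t := by omega
        rw [e7, sp_len hX hY, (cell_head hX hY t).1] at hl
        rcases hl with hl | hl
        · exact hst.2 hl
        · -- right turn: then there is no such step
          have h8 : nextSide Q t = (t.1 + dir t.2 + dir (t.2 - 1), t.2 - 1) := by
            unfold nextSide; rw [if_pos hl]
          have h9 : tn Q t = 0 := by unfold tn; rw [h8]; simp
          omega
  · exfalso
    have htn := tn_cast (Q := Q) t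
    rcases nextSide_snd (Q := Q) t with h4 | h4 | h4
    · omega
    · omega
    · have h5 := (walk_middle hX hY hs n (by rw [← ht]; exact h4)).1
      have e : SS Q X Y s n + 2 * slen X Y t = i := by omega
      rw [← ht, e] at h5
      have e5 : t.2 + 1 + 1 = t.2 + 2 := by ring
      rw [h5, lab_oc_mem hX hY, (cell_head hX hY t).1, e5, (cell_head hX hY t).2] at hl
      have hb : t.1 + dir t.2 + dir (t.2 - 1) ∉ Q ∧ t.1 + dir t.2 ∉ Q := by
        unfold nextSide at h4
        split_ifs at h4 with g1 g2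
        · simp only at h4; omega
        · simp only at h4; omega
        · exact ⟨g1, g2⟩
      exact hl.elim hb.1 hb.2

/-- **The walk along the wired arc**: it is the same in every configuration which contains the labels
of the sides `m ≤ n < N`. -/
theorem walk_wired (hX : StrictMono X) (hY : StrictMono Y) {s : Cell × ℤ} (hs : IsSide Q s)
    {m N : ℕ} {ω : Finset (ℤ × ℤ)} (hω : ω ⊆ EF (LF Q X Y)) (hW : WS Q X Y s m N ⊆ ω) {i : ℕ}
    (hi : SS Q X Y s m + i ≤ SS Q X Y s N) :
    (nx ω)^[i] (sc X Y ((nextSide Q)^[m] s)) =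
      (nx (EF (LF Q X Y)))^[SS Q X Y s m + i] (sc X Y s) := by
  induction i with
  | zero =>
    rw [add_zero, (walk_iter hX hY hs m).1]; rfl
  | succ i ih =>
    have ih := ih (by omega)
    rw [Function.iterate_succ_apply', ih, ← add_assoc, Function.iterate_succ_apply']
    set z := (nx (EF (LF Q X Y)))^[SS Q X Y s m + i] (sc X Y s) with hz
    by_cases hl : lab z ∈ EF (LF Q X Y)
    · -- the side
      have key : ∀ M : ℕ, SS Q X Y s m + i < SS Q X Y s M → ∃ n < M,
          SS Q X Y s n ≤ SS Q X Y s m + i ∧ SS Q X Y s m + i < SS Q X Y s (n + 1) := by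
        intro M
        induction M with
        | zero => intro h; exfalso; simp [SS] at h
        | succ M ihM =>
          intro h
          by_cases h1 : SS Q X Y s m + i < SS Q X Y s M
          · obtain ⟨n, hn, h2⟩ := ihM h1
            exact ⟨n, by omega, h2⟩
          · exact ⟨M, by omega, by omega, h⟩
      obtain ⟨n, hn, h1, h2⟩ := key N (by omega)
      obtain ⟨j, hj, -, h4⟩ := lab_walk hX hY hs h1 h2 (by rw [← hz]; exact hl)
      have hmn : m ≤ n := by
        by_contra hcon
        have := SS_mono (Q := Q) (X := X) (Y := Y) s (show n + 1 ≤ m by omega)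
        omega
      have h5 : lab z ∈ ω := by
        rw [hz, ← h4]
        exact hW (mem_WS.2 ⟨n, ⟨hmn, hn⟩, j, hj, rfl⟩)
      unfold nx
      rw [if_pos hl, if_pos h5]
    · unfold nx
      rw [if_neg hl, if_neg (fun h => hl (hω h))]

/-- The vertices of the two ends of the wired arc are connected by its edges. -/
lemma co_wired (hX : StrictMono X) (hY : StrictMono Y) {s : Cell × ℤ} (hs : IsSide Q s)
    {m N : ℕ} {ω : Finset (ℤ × ℤ)} (hω : ω ⊆ EF (LF Q X Y))
    (hW : WS Q X Y s m N ⊆ ω) {i : ℕ} (hi : SS Q X Y s m + i ≤ SS Q X Y s N) :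
    Co ω (gp X Y (tail ((nextSide Q)^[m] s)))
      (vx ((nx (EF (LF Q X Y)))^[SS Q X Y s m + i] (sc X Y s))) := by
  have h1 := Pool.Agent.H69.Q1.co_orb ω (sc X Y ((nextSide Q)^[m] s)) i
  rw [walk_wired hX hY hs hω hW hi] at h1
  unfold sc at h1 ⊢
  rw [vx_oc] at h1
  exact h1

/-- **The structure of the loop of the base corner** in a configuration `ω` which contains the wired
arc (sides `m ≤ n < N`): after exactly `L - (SS N - SS m)` steps it arrives at the beginning of the
wired arc, then it follows the wired arc. -/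
theorem loop_wired (hQ : Good Q) (hX : StrictMono X) (hY : StrictMono Y) {s : Cell × ℤ}
    (hs : IsSide Q s) {N : ℕ} (hper : (nextSide Q)^[N] s = (s.1, s.2 + 4)) {m : ℕ} (hm0 : 0 < m)
    (hmN : m < N) {ω : Finset (ℤ × ℤ)} (hω : ω ⊆ EF (LF Q X Y)) (hW : WS Q X Y s m N ⊆ ω) {L : ℕ}
    (hO : Orb (nx ω) (sc X Y s) L) :
    SS Q X Y s N - SS Q X Y s m < L ∧
      ∀ i, SS Q X Y s m + i ≤ SS Q X Y s N →
        (nx ω)^[L - (SS Q X Y s N - SS Q X Y s m) + i] (sc X Y s) =
          (nx (EF (LF Q X Y)))^[SS Q X Y s m + i] (sc X Y s) := by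
  set A := SS Q X Y s m with hA
  set B := SS Q X Y s N with hB
  have hA0 : 0 < A := by
    have h1 := SS_mono (Q := Q) (X := X) (Y := Y) s (show 1 ≤ m from hm0)
    have h2 := SS_succ (Q := Q) (X := X) (Y := Y) s 0
    have h3 := stp_pos (Q := Q) hX hY ((nextSide Q)^[0] s)
    simp only [zero_add] at h2
    omega
  have hAB : A < B := by
    have h1 := SS_mono (Q := Q) (X := X) (Y := Y) s (show m + 1 ≤ N from hmN)
    have h2 := SS_succ (Q := Q) (X := X) (Y := Y) s m
    have h3 := stp_pos (Q := Q) hX hY ((nextSide Q)^[m] s)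
    omega
  have hOE : Orb (nx (EF (LF Q X Y))) (sc X Y s) B := orb_SS hQ hX hY hs hper
  -- the end of the wired walk is the base corner
  have hend : (nx ω)^[B - A] (sc X Y ((nextSide Q)^[m] s)) = sc X Y s := by
    rw [walk_wired hX hY hs hω hW (by omega)]
    have : A + (B - A) = B := by omega
    rw [this]; exact hOE.per
  -- the start of the wired walk is on the loop
  have hin : InOrb (nx ω) (sc X Y s) (sc X Y ((nextSide Q)^[m] s)) :=
    inOrb_symm ⟨B - A, hend⟩
  obtain ⟨p, hpL, hp⟩ := (hO.inOrb_iff _).1 hin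
  -- position
  have h1 : (nx ω)^[(B - A) + p] (sc X Y s) = sc X Y s := by
    rw [Function.iterate_add_apply, hp, hend]
  have hne : ∀ i, i < B - A → (nx ω)^[p + i] (sc X Y s) ≠ sc X Y s := by
    intro i hi he
    rw [add_comm, Function.iterate_add_apply, hp, walk_wired hX hY hs hω hW (by omega)] at he
    exact hOE.inj 0 (A + i) (by omega) (by omega) he.symm
  have hp0 : 0 < p := by
    rcases Nat.eq_zero_or_pos p with h | h
    · exfalso
      apply hne 0 (by omega)
      rw [h]; rfl
    · exact h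
  have hLe : L ≤ p + (B - A) := by
    by_contra hcon
    push Not at hcon
    exact hO.inj 0 (p + (B - A)) (by omega) hcon (by rw [add_comm, h1]; rfl)
  have hpe : p + (B - A) = L := by
    rcases Nat.lt_or_ge (p + (B - A)) (L + 1) with h | h
    · omega
    · exfalso
      apply hne (L - p) (by omega)
      have : p + (L - p) = L := by omega
      rw [this]; exact hO.per
  refine ⟨by omega, fun i hi => ?_⟩
  have e : L - (B - A) + i = i + p := by omega
  rw [e, Function.iterate_add_apply, hp, walk_wired hX hY hs hω hW hi]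

end poly

end Pool.Agent.H5.Q1
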