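import Mathlib
import Pool.Agent.H5.Q1.Loop
import Pool.Agent.H49.Q1.Grid
import Pool.Agent.Q1.M4.Data

set_option autoImplicit false
set_option linter.unusedSimpArgs false
open Finset

/-! Identification of the different descriptions of a lattice polygon: `EF (LF Q X Y) = gs X Y Q`,
vertices `inV`, points of sides `onSide`. -/

namespace Pool.Agent.H5.Q1

open Pool.Agent.H75.Perc Pool.Agent.H75.TwoArm
open Pool.Agent.H49.Q1 (gs gcell mem_gs)
open Pool.Agent.Q1.M4 (Conn4 Adj4 Good Cell IsSide nextSide tail head PType isSide_next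
  head_eq_tail_next inV inRect lpt)

variable {Q : Finset Cell} {X Y : ℤ → ℤ}

/-- **The labels of the lattice polygon.** -/
theorem EF_LF_eq_gs (hX : StrictMono X) (hY : StrictMono Y) : EF (LF Q X Y) = gs X Y Q := by
  ext e
  rw [mem_EF, mem_gs]
  constructor
  · rintro ⟨f, hf, he⟩
    obtain ⟨c, hc, h1, h2⟩ := mem_LF.1 hf
    refine ⟨c, hc, ?_⟩
    unfold gcell
    rw [mem_Bx]
    rw [mem_lf] at he
    omega
  · rintro ⟨c, hc, he⟩
    unfold gcell at he
    rw [mem_Bx] at he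
    have hX1 : X c.1 < X (c.1 + 1) := hX (by omega)
    have hY1 : Y c.2 < Y (c.2 + 1) := hY (by omega)
    obtain ⟨a, b⟩ := e
    simp only at he
    -- a face of the cell next to the label
    by_cases ha : a % 2 = 0
    · by_cases h1 : a = 2 * X (c.1 + 1)
      · refine ⟨(a / 2, (b + 1) / 2), mem_LF.2 ⟨c, hc, ?_⟩, ?_⟩
        · simp only; omega
        · rw [mem_lf]; simp only; omega
      · refine ⟨(a / 2 + 1, (b + 1) / 2), mem_LF.2 ⟨c, hc, ?_⟩, ?_⟩
        · simp only; omega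
        · rw [mem_lf]; simp only; omega
    · by_cases h1 : b = 2 * Y (c.2 + 1)
      · refine ⟨((a + 1) / 2, b / 2), mem_LF.2 ⟨c, hc, ?_⟩, ?_⟩
        · simp only; omega
        · rw [mem_lf]; simp only; omega
      · refine ⟨((a + 1) / 2, b / 2 + 1), mem_LF.2 ⟨c, hc, ?_⟩, ?_⟩
        · simp only; omega
        · rw [mem_lf]; simp only; omega

lemma mem_VE_of_ad {E : Finset (ℤ × ℤ)} (hodd : ∀ e ∈ E, (e.1 + e.2) % 2 = 1) {u v : ℤ × ℤ}
    (h : Ad E u v) : u ∈ VE E := by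
  have h1 := hodd _ h.2
  have h2 := mem_VE h.2
  have h3 := unit_cases h.1
  have h4 : u = vx (in1 (u + v)) ∨ u = vx (in2 (u + v)) := by
    rcases vx_in1 (u + v) h1 with ⟨g1, g2, g3, g4⟩ | ⟨g1, g2, g3, g4⟩ <;> rw [g3, g4] <;>
      simp only [Prod.ext_iff, Prod.fst_add, Prod.snd_add] at g1 g2 ⊢ <;> omega
  rcases h4 with h4 | h4
  · rw [h4]; exact h2.1
  · rw [h4]; exact h2.2

/-- **The vertices of the lattice polygon.** -/
theorem mem_VE_iff_inV (hX : StrictMono X) (hY : StrictMono Y) {v : ℤ × ℤ} :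
    v ∈ VE (EF (LF Q X Y)) ↔ inV Q X Y v := by
  constructor
  · intro h
    obtain ⟨f, hf, h1⟩ := vf_of_VE h
    obtain ⟨c, hc, h2, h3⟩ := mem_LF.1 hf
    refine ⟨c, hc, ?_⟩
    unfold VF at h1
    unfold inRect
    omega
  · rintro ⟨c, hc, h⟩
    unfold inRect at h
    have hX1 : X c.1 < X (c.1 + 1) := hX (by omega)
    have hodd : ∀ e ∈ EF (LF Q X Y), (e.1 + e.2) % 2 = 1 := fun e he => odd_EF he
    have hm : ∀ e, e ∈ gcell X Y c → e ∈ EF (LF Q X Y) := by
      intro e he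
      rw [EF_LF_eq_gs hX hY]
      exact mem_gs.2 ⟨c, hc, he⟩
    by_cases h1 : v.1 = X (c.1 + 1)
    · refine mem_VE_of_ad hodd (v := (v.1 - 1, v.2)) ⟨?_, hm _ ?_⟩
      · unfold IsUnit4; simp only [Prod.ext_iff, Prod.fst_sub, Prod.snd_sub]; omega
      · unfold gcell; rw [mem_Bx]; simp only [Prod.fst_add, Prod.snd_add]; omega
    · refine mem_VE_of_ad hodd (v := (v.1 + 1, v.2)) ⟨?_, hm _ ?_⟩
      · unfold IsUnit4; simp only [Prod.ext_iff, Prod.fst_sub, Prod.snd_sub]; omega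
      · unfold gcell; rw [mem_Bx]; simp only [Prod.fst_add, Prod.snd_add]; omega

lemma lpt_eq_gp (g : ℤ × ℤ) : lpt X Y g = gp X Y g := rfl

lemma gp_head_sub (hX : StrictMono X) (hY : StrictMono Y) (s : Cell × ℤ) :
    |(gp X Y (head s) - gp X Y (tail s)).1| + |(gp X Y (head s) - gp X Y (tail s)).2| =
      (slen X Y s : ℤ) := by
  rw [← sp_len hX hY, ← sp_zero]
  unfold sp
  rcases dir_cases s.2 with ⟨-, e⟩ | ⟨-, e⟩ | ⟨-, e⟩ | ⟨-, e⟩ <;> rw [e] <;> simp

/-- Points of the sides. -/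
theorem onSide_iff (hX : StrictMono X) (hY : StrictMono Y) (P : PType) {n l : ℕ} {v : ℤ × ℤ} :
    P.onSide X Y n l v ↔ l ≤ slen X Y (P.side n) ∧ v = sp X Y (P.side n) l := by
  unfold PType.onSide
  have h1 : P.vert (n + 1) = head (P.side n) := by
    unfold PType.vert PType.side
    rw [Function.iterate_succ_apply', head_eq_tail_next]
  have h2 : P.vert n = tail (P.side n) := rfl
  rw [h1, h2, lpt_eq_gp, lpt_eq_gp, gp_head_sub hX hY, Nat.cast_le]
  have h3 : gp X Y (tail (P.side n)) + (l : ℤ) • dir (P.side n).2 = sp X Y (P.side n) l := by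
    unfold sp
    refine Prod.ext ?_ ?_ <;> simp
  rw [h3]
  tauto

end Pool.Agent.H5.Q1
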